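import Pool.Agent.Helper15.ABC.Local
import Pool.Agent.Helper15.ABC.FromC

/-!
# (B), (C) and finite-dimensionality for a class of varieties closed under products
-/

open CategoryTheory MonoidalCategory Limits TensorProduct
open Pool.Agent.Helper15.Murre Pool.Agent.Helper58.MAD

universe t w v u

set_option linter.unusedSectionVars false

namespace Pool.Agent.Helper15.ABC

section defs

variable {C : Type u} [Category.{v} C] [Preadditive C] [Linear ℚ C]
  [MonoidalCategory C] [SymmetricCategory C] [RigidCategory C] {F : Type w} [Field F]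

/-- The objects `h X`, `X : ι`, have the formal properties of the motives of a class of nonempty
equidimensional smooth projective varieties which is closed under products, for example the
class of all powers of one variety. -/
structure ProductClass (W : MotivicHomology C F) {ι : Type t} (h : ι → C) : Prop where
  /-- `h(X × Y) = h(X) ⊗ h(Y)` -/
  prod : ∀ X Y : ι, ∃ Z : ι, Nonempty (h Z ≅ h X ⊗ h Y)
  /-- Poincaré duality: `h(X)ᘁ = h(X)(-dim X)` -/
  dual : ∀ X : ι, ∃ d : ℤ, Nonempty ((h X)ᘁ ≅ h X ⊗ W.T d)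
  /-- `1(l)` is a direct summand of `h(X)` for `0 ≤ l ≤ dim X`, and `CH_l(X) = 0` for all
  other `l` -/
  tate : ∀ (X : ι) (l : ℤ), (∀ α : W.CH l (h X), α = 0) ∨ Nonempty (Retract (W.T l) (h X))
  /-- `X` is not empty -/
  point : ∀ X : ι, ∃ l : ℤ, Nonempty (Retract (W.T l) (h X))

/-- `N` is a direct summand of some `h(X)(m)`. -/
def Generated (W : MotivicHomology C F) {ι : Type t} (h : ι → C) (N : C) : Prop :=
  ∃ (X : ι) (m : ℤ), Nonempty (Retract N (h X ⊗ W.T m))

end defs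

variable {C : Type u} [Category.{v} C] [Preadditive C] [Linear ℚ C]
  [MonoidalCategory C] [SymmetricCategory C] [MonoidalPreadditive C] [MonoidalLinear ℚ C]
  [RigidCategory C] {F : Type w} [Field F] {W : MotivicHomology C F}
  {ι : Type t} {h : ι → C}

/-- retracts of tensor products -/
def retractTensor {A A' B B' : C} (R : Retract A A') (S : Retract B B') :
    Retract (A ⊗ B) (A' ⊗ B') where
  i := R.i ⊗ₘ S.i
  r := R.r ⊗ₘ S.r
  retract := by
    rw [tensorHom_comp_tensorHom, R.retract, S.retract, id_tensorHom_id]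

/-- retracts of duals -/
def retractDual {A A' : C} (R : Retract A A') : Retract (Aᘁ) (A'ᘁ) where
  i := R.rᘁ
  r := R.iᘁ
  retract := by
    rw [← comp_rightAdjointMate, R.retract, rightAdjointMate_id]

/-- an isomorphism as a retract -/
def retractIso {A B : C} (e : A ≅ B) : Retract A B where
  i := e.hom
  r := e.inv
  retract := e.hom_inv_id

lemma Generated.retract {M N : C} (hM : Generated W h M) (R : Retract N M) : Generated W h N := by
  obtain ⟨X, m, ⟨S⟩⟩ := hM
  exact ⟨X, m, ⟨R.trans S⟩⟩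

/-- `(A ⊗ T m) ⊗ (B ⊗ T n) ≅ (A ⊗ B) ⊗ T (m + n)` -/
noncomputable def twistTensor (W : MotivicHomology C F) (A B : C) (m n : ℤ) :
    (A ⊗ W.T m) ⊗ (B ⊗ W.T n) ≅ (A ⊗ B) ⊗ W.T (m + n) :=
  (α_ _ _ _) ≪≫ whiskerLeftIso A ((α_ _ _ _).symm ≪≫
    whiskerRightIso (β_ (W.T m) B) (W.T n) ≪≫ α_ _ _ _) ≪≫ (α_ _ _ _).symm ≪≫
    whiskerLeftIso (A ⊗ B) (W.tateAdd m n).symm

lemma ProductClass.self (_H : ProductClass W h) (X : ι) : Generated W h (h X) :=
  ⟨X, 0, ⟨retractIso ((ρ_ _).symm ≪≫ whiskerLeftIso (h X) W.tateZero.symm)⟩⟩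

lemma ProductClass.tensor (H : ProductClass W h) {M N : C} (hM : Generated W h M)
    (hN : Generated W h N) : Generated W h (M ⊗ N) := by
  obtain ⟨X, m, ⟨R⟩⟩ := hM
  obtain ⟨Y, n, ⟨S⟩⟩ := hN
  obtain ⟨Z, ⟨e⟩⟩ := H.prod X Y
  exact ⟨Z, m + n, ⟨(retractTensor R S).trans (retractIso (twistTensor W (h X) (h Y) m n ≪≫
    whiskerRightIso e.symm (W.T (m + n))))⟩⟩

lemma ProductClass.tate_dual (H : ProductClass W h) (X : ι) (m : ℤ) :
    ∃ n : ℤ, Nonempty ((h X ⊗ W.T m)ᘁ ≅ h X ⊗ W.T n) := by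
  obtain ⟨d, ⟨e⟩⟩ := H.dual X
  refine ⟨-m + d, ⟨rightDualTensorIso (h X) (W.T m) ≪≫ (whiskerRightIso (W.tateDual m) _) ≪≫
    whiskerLeftIso _ e ≪≫ (β_ _ _) ≪≫ (α_ _ _ _) ≪≫
      whiskerLeftIso (h X) ((β_ _ _) ≪≫ (W.tateAdd (-m) d).symm)⟩⟩

lemma ProductClass.dual' (H : ProductClass W h) {N : C} (hN : Generated W h N) :
    Generated W h (Nᘁ) := by
  obtain ⟨X, m, ⟨R⟩⟩ := hN
  obtain ⟨n, ⟨e⟩⟩ := H.tate_dual X m
  exact ⟨X, n, ⟨(retractDual R).trans (retractIso e)⟩⟩

lemma ProductClass.unit (H : ProductClass W h) (X : ι) : Generated W h (𝟙_ C) := by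
  obtain ⟨l, ⟨R⟩⟩ := H.point X
  refine ⟨X, -l, ⟨Retract.trans (retractIso (W.tateInv l).symm)
    (retractTensor R (Retract.refl (W.T (-l))))⟩⟩

lemma ProductClass.tpow (H : ProductClass W h) {N : C} (hN : Generated W h N) :
    ∀ n : ℕ, Generated W h (tpow N n)
  | 0 => H.unit hN.choose
  | n + 1 => H.tensor (H.tpow hN n) hN

section main

variable [HasBinaryBiproducts C] [IsIdempotentComplete C]

lemma ProductClass.end_iso (H : ProductClass W h) (X : ι) :
    ∃ (Z : ι) (n : ℤ), Nonempty (h X ⊗ (h X)ᘁ ≅ h Z ⊗ W.T n) := by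
  obtain ⟨d, ⟨e⟩⟩ := H.dual X
  obtain ⟨Z, ⟨f⟩⟩ := H.prod X X
  exact ⟨Z, d, ⟨whiskerLeftIso (h X) e ≪≫ (α_ _ _ _).symm ≪≫ whiskerRightIso f.symm (W.T d)⟩⟩

lemma ProductClass.murreC_end (H : ProductClass W h) (hC : ∀ X, MurreC W (h X)) (X : ι) :
    MurreC W (h X ⊗ (h X)ᘁ) := by
  obtain ⟨Z, n, ⟨e⟩⟩ := H.end_iso X
  exact (murreC_twist (hC Z) n).ofIso e.symm

/-- (C) for the class implies (A), (B), (C) for all direct summands of twists. -/
theorem ProductClass.of_murreC (H : ProductClass W h) (hA : ∀ X, MurreA W (h X))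
    (hC : ∀ X, MurreC W (h X)) {N : C} (hN : Generated W h N) :
    MurreA W N ∧ MurreC W N ∧ ∀ E : CK W N, E.MurreB := by
  obtain ⟨X, m, hR⟩ := hN
  obtain ⟨h1, h2, h3, -⟩ := summandsFromC W (h X) (hA X) (H.tate X) (H.point X)
    (H.murreC_end hC X) N m hR
  exact ⟨h1, h2, h3⟩

/-- (B) for every Chow-Künneth decomposition implies (C) -/
theorem ProductClass.murreC_of_murreB (H : ProductClass W h)
    (hB : ∀ (X : ι) (D : CK W (h X)), D.MurreB) (X : ι) : MurreC W (h X) := by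
  obtain ⟨Z, n, ⟨e⟩⟩ := H.end_iso X
  exact murreC_of_murreB_end (murreB_ofIso e.symm (murreB_twist (hB Z) n))

/-- no phantoms -/
theorem ProductClass.idem_zero (H : ProductClass W h)
    (hB : ∀ N : C, Generated W h N → ∀ E : CK W N, E.MurreB) {M : C} (hM : Generated W h M)
    (t : M ⟶ M) (ht : t ≫ t = t) (h0 : W.H.map t = 0) : t = 0 := by
  obtain ⟨P, i, e, hie, hei⟩ := IsIdempotentComplete.idempotents_split M t ht
  have h1 : (𝟙 P : P ⟶ P) = i ≫ t ≫ e := by
    rw [← hei]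
    simp only [Category.assoc]
    rw [reassoc_of% hie, hie]
  have h2 : Subsingleton (W.H.obj P) := by
    apply W.subsingleton_of_id
    rw [h1, Functor.map_comp, Functor.map_comp W.H t, h0]
    simp
  have hP : Generated W h P := hM.retract ⟨i, e, hie⟩
  have h3 := id_eq_zero_of_murreB_end (hB _ (H.tensor hP (H.dual' hP))) h2
  have h4 : t = e ≫ 𝟙 P ≫ i := by rw [Category.id_comp, hei]
  rw [h4, h3, zero_comp, comp_zero]

/-- finite-dimensionality -/
theorem ProductClass.kimura (H : ProductClass W h)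
    (hB : ∀ N : C, Generated W h N → ∀ E : CK W N, E.MurreB) {M : C} (hM : Generated W h M)
    (D : CK W M) : KimuraFinite M := by
  have hz : ∀ (P : C), Generated W h P → ∀ r : ℤ, r = 0 ∨ r = 1 →
      (∀ i, i % 2 ≠ r → ∀ x ∈ W.gr P i, x = 0) →
      asym (((1 - 2 * r : ℤ)) : ℚ) P (Module.finrank F (W.H.obj P) + 1) = 0 := by
    intro P hP r hr h0
    have he : (1 - 2 * r) * (1 - 2 * r) = 1 := by
      rcases hr with rfl | rfl <;> norm_num
    exact H.idem_zero hB (H.tpow hP _) _ (asym_props (by exact_mod_cast he) P _).1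
      ((hasSign_of_parity r hr h0).asym_zero he _ (Nat.lt_succ_self _))
  obtain ⟨P, f, e, hfe, hef, hP⟩ := D.par_split 0
  obtain ⟨Q, f', e', hfe', hef', hQ⟩ := D.par_split 1
  refine ⟨P, Q, Module.finrank F (W.H.obj P) + 1, Module.finrank F (W.H.obj Q) + 1,
    ⟨⟨biprod.lift e e', biprod.desc f f', ?_, ?_⟩⟩, ?_, ?_⟩
  · rw [biprod.lift_desc, hef, hef', D.par_sum]
  · have h1 : f ≫ e' = 0 := by
      have : f ≫ e' = (f ≫ e) ≫ f ≫ e' ≫ f' ≫ e' := by rw [hfe, hfe']; simp
      rw [this]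
      simp only [Category.assoc]
      rw [← Category.assoc e f, hef, ← Category.assoc e' f', hef', ← Category.assoc (D.par 0),
        D.par_orth (by norm_num)]
      simp
    have h2 : f' ≫ e = 0 := by
      have : f' ≫ e = (f' ≫ e') ≫ f' ≫ e ≫ f ≫ e := by rw [hfe, hfe']; simp
      rw [this]
      simp only [Category.assoc]
      rw [← Category.assoc e' f', hef', ← Category.assoc e f, hef, ← Category.assoc (D.par 1),
        D.par_orth (by norm_num)]
      simp
    apply biprod.hom_ext' <;> apply biprod.hom_ext <;> simp [hfe, hfe', h1, h2]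
  · rw [extVanish_iff]
    have := hz P (hM.retract ⟨f, e, hfe⟩) 0 (Or.inl rfl) hP
    norm_num at this
    exact this
  · rw [symVanish_iff]
    have := hz Q (hM.retract ⟨f', e', hfe'⟩) 1 (Or.inr rfl) hQ
    norm_num at this
    exact this

/-- The equivalence of (B), (C) and finite-dimensionality for a class closed under products. -/
theorem ProductClass.tfae (H : ProductClass W h) (hA : ∀ X, MurreA W (h X)) :
    [∀ X : ι, MurreC W (h X),
      ∀ (X : ι) (D : CK W (h X)), D.MurreB,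
      ∀ X : ι, KimuraFinite (h X) ∧ ∃ D : CK W (h X), D.MurreB,
      ∀ N : C, Generated W h N → MurreA W N ∧ (∀ D : CK W N, D.MurreB) ∧ MurreC W N ∧
        KimuraFinite N].TFAE := by
  tfae_have 1 → 4 := by
    intro hC N hN
    obtain ⟨h1, h2, h3⟩ := H.of_murreC hA hC hN
    exact ⟨h1, h3, h2, H.kimura (fun N hN => (H.of_murreC hA hC hN).2.2) hN h1.some⟩
  tfae_have 4 → 3 := fun h4 X =>
    ⟨(h4 _ (H.self X)).2.2.2, (hA X).some, (h4 _ (H.self X)).2.1 _⟩
  tfae_have 3 → 2 := fun h3 X E => murreB_all_of_kimura (h3 X).1 _ (h3 X).2.choose_spec E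
  tfae_have 2 → 1 := fun h2 => H.murreC_of_murreB h2
  tfae_finish

/-- (A)-(D) -/
theorem ProductClass.murreD_iff (H : ProductClass W h) (hA : ∀ X, MurreA W (h X)) :
    (∀ X : ι, MurreC W (h X) ∧ ∃ D : CK W (h X), D.MurreD) ↔
      ∀ N : C, Generated W h N → MurreA W N ∧ MurreC W N ∧
        ∀ D : CK W N, D.MurreB ∧ D.MurreD := by
  constructor
  · rintro hCD N ⟨X, m, hR⟩
    obtain ⟨h1, h2, h3, h4⟩ := summandsFromC W (h X) (hA X) (H.tate X) (H.point X)
      (H.murreC_end (fun X => (hCD X).1) X) N m hR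
    exact ⟨h1, h2, fun E => ⟨h3 E, h4 (hCD X).2 E⟩⟩
  · intro h4 X
    obtain ⟨h1, h2, h3⟩ := h4 _ (H.self X)
    exact ⟨h2, h1.some, (h3 _).2⟩

end main

end Pool.Agent.Helper15.ABC
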