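import Pool.Agent.Helper58.MAD.Lift

/-!
# Chow-Künneth decompositions from Künneth projectors and nilpotence, for one object
-/

open CategoryTheory MonoidalCategory Limits TensorProduct
open Pool.Agent.Helper15.Murre Pool.Agent.Helper58.MAD

universe w v u

set_option linter.unusedSectionVars false

namespace Pool.Agent.Helper15.ABC

variable {C : Type u} [Category.{v} C] [Preadditive C] [Linear ℚ C]
  [MonoidalCategory C] [SymmetricCategory C] [RigidCategory C]
  {F : Type w} [Field F] {W : MotivicHomology C F}

/-- If the homologically trivial endomorphisms of `M` are nilpotent and the Kunneth projectors of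
`M` are algebraic, then `M` has a Chow-Kunneth decomposition. -/
theorem exists_CK_local {M : C} (hN : ∀ x : M ⟶ M, W.H.map x = 0 → ∃ m : ℕ, pw x m = 0)
    (hK : KunnethHom W M) : MurreA W M := by
  classical
  have hadd := W.additive
  obtain ⟨s, hs⟩ := exists_degrees W M
  choose x hxH using hK
  let J := homIdeal W M
  let φ := J.ringCon.mk'
  have hker : ∀ x : End M, φ x = 0 ↔ x ∈ J := by
    intro x
    have h1 := TwoSidedIdeal.ker_ringCon_mk' J
    rw [← TwoSidedIdeal.mem_ker, h1]
  have heq : ∀ x y : End M, φ x = φ y ↔ x - y ∈ J := by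
    intro x y
    rw [← hker, map_sub, sub_eq_zero]
  have heqH : ∀ x y : End M, φ x = φ y ↔ W.H.map x.asHom = W.H.map y.asHom := by
    intro x y
    rw [heq, mem_homIdeal]
    have : (x - y : End M).asHom = x.asHom - y.asHom := rfl
    rw [this, Functor.map_sub, sub_eq_zero]
  have hco : CompleteOrthogonalIdempotents (fun n : {n // n ∈ s} => φ (End.of (x n))) := by
    refine ⟨⟨?_, ?_⟩, ?_⟩
    · intro n
      change φ _ * φ _ = φ _
      rw [← map_mul, heqH]
      apply W.hext
      intro j z hz
      change (W.H.map (x n ≫ x n)).hom z = (W.H.map (x n)).hom z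
      rw [W.map_comp_apply, hxH n j z hz]
      split_ifs with h
      · rw [hxH n j z hz, if_pos h]
      · rw [map_zero]
    · intro n m hnm
      change φ _ * φ _ = 0
      rw [← map_mul, ← map_zero φ, heqH]
      apply W.hext
      intro j z hz
      change (W.H.map (x m ≫ x n)).hom z = (W.H.map (0 : M ⟶ M)).hom z
      rw [W.map_comp_apply, hxH m j z hz, W.map_zero_apply]
      split_ifs with h
      · rw [hxH n j z hz, if_neg]
        intro h'
        exact hnm (Subtype.ext (h'.symm.trans h))
      · rw [map_zero]
    · rw [← map_sum, ← map_one φ, heqH]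
      apply W.hext
      intro j z hz
      have h1 : (∑ n : {n // n ∈ s}, End.of (x n) : End M).asHom = ∑ n ∈ s, x n := by
        rw [← Finset.sum_coe_sort s]
      rw [h1, Functor.map_sum]
      have h2 : (∑ n ∈ s, W.H.map (x n)).hom z = ∑ n ∈ s, (W.H.map (x n)).hom z := by
        rw [ModuleCat.hom_sum, LinearMap.sum_apply]
      rw [h2]
      have h3 : (W.H.map (1 : End M).asHom).hom z = z := W.map_id_apply z
      rw [h3]
      by_cases hj : j ∈ s
      · rw [Finset.sum_eq_single_of_mem j hj]
        · rw [hxH j j z hz, if_pos rfl]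
        · intro b _ hb
          rw [hxH b j z hz, if_neg (Ne.symm hb)]
      · rw [hs j hj z hz]
        simp only [map_zero, Finset.sum_const_zero]
  obtain ⟨e, he, hφe⟩ := CompleteOrthogonalIdempotents.lift_of_isNilpotent_ker φ
    (fun y hy => by
      obtain ⟨m, hm⟩ := hN y.asHom ((mem_homIdeal y).1 ((hker y).1 hy))
      refine ⟨m, ?_⟩
      rw [pw_eq_pow_lift] at hm
      exact hm) hco
    (fun n => ⟨End.of (x n), rfl⟩)
  have hH : ∀ n, W.H.map (e n).asHom = W.H.map (x n) := by
    intro n
    have := congrFun hφe n
    exact (heqH _ _).1 this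
  refine ⟨⟨fun n => if hn : n ∈ s then (e ⟨n, hn⟩).asHom else 0, ?_, ?_, ?_, ?_, ?_⟩⟩
  · intro n
    split_ifs with hn
    · exact he.idem ⟨n, hn⟩
    · simp
  · intro n m hnm
    split_ifs with hn hm hm
    · exact he.ortho (i := ⟨m, hm⟩) (j := ⟨n, hn⟩)
        (by intro h; exact hnm (congrArg Subtype.val h).symm)
    all_goals simp
  · refine s.finite_toSet.subset ?_
    intro n hn
    by_contra h'
    apply hn
    simp only [Finset.mem_coe] at h'
    simp [h']
  · rw [finsum_eq_sum_of_support_subset (s := s)]
    · rw [← Finset.sum_coe_sort]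
      have h1 : ∀ n : {n // n ∈ s}, (if hn : (n : ℤ) ∈ s then (e ⟨n, hn⟩).asHom else 0)
          = (e n).asHom := by
        intro n
        simp [n.2]
      simp only [h1]
      exact he.complete
    · intro n hn
      by_contra h'
      apply hn
      simp only [Finset.mem_coe] at h'
      simp [h']
  · intro n j z hz
    by_cases hn : n ∈ s
    · rw [dif_pos hn, hH ⟨n, hn⟩, hxH n j z hz]
    · rw [dif_neg hn]
      rw [W.map_zero_apply]
      split_ifs with h
      · subst h
        exact (hs j hn z hz).symm
      · rfl

end Pool.Agent.Helper15.ABC
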