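import Pool.Agent.Helper88.MADR.Len
import Pool.Agent.Helper58.MAD.Nil
import Pool.Agent.Helper58.MAD.Basic

/-!
# Transfer of nilpotence to an extension field
-/

open CategoryTheory MonoidalCategory Limits TensorProduct
open Pool.Agent.Helper15.Murre Pool.Agent.Helper58.MAD Pool.Agent.Helper88.MADR

universe w v u

set_option linter.unusedSectionVars false

namespace Pool.Agent.Helper15.ABC

variable {C : Type u} [Category.{v} C] [Preadditive C] [Linear ℚ C]
  [MonoidalCategory C] [SymmetricCategory C] [MonoidalPreadditive C] [MonoidalLinear ℚ C]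
  [RigidCategory C] [HasBinaryBiproducts C] [IsIdempotentComplete C]
  {F : Type w} [Field F] {W : MotivicHomology C F}
variable {C' : Type u} [Category.{v} C'] [Preadditive C'] [Linear ℚ C']
  [MonoidalCategory C'] [SymmetricCategory C'] [MonoidalPreadditive C'] [MonoidalLinear ℚ C']
  [RigidCategory C'] [HasBinaryBiproducts C'] [IsIdempotentComplete C']
  {W' : MotivicHomology C' F} {Φ : C ⥤ C'}

/-- The key lemma. -/
theorem key (hadd : Φ.Additive) {N V : C} {P : C'} (b : Φ.obj N ⟶ P) (i : V ⟶ N)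
    (hib : Φ.map i ≫ b = 0) (μ : N ⟶ V) (hμ : W.H.map (i ≫ μ ≫ i) = W.H.map i) (G : N ⟶ N)
    (f : P ⟶ P) (hG : Φ.map G ≫ b = b ≫ f) (T : N ⟶ N) (l : ℤ)
    (hT : ∀ γ : W.CH l N, γ ≫ T = γ)
    (him : ∀ j, ∀ x ∈ W.gr N j, ∃ v, (W.H.map (T ≫ G)).hom x = (W.H.map i).hom v)
    (hN : NilHom W) : ∃ M : ℕ, ∀ γ : W.CH l N, Φ.map (γ ≫ pw G M) ≫ b = 0 := by
  have hν : W.H.map (T ≫ G - T ≫ G ≫ μ ≫ i) = 0 := by
    apply W.hext
    intro j x hx
    obtain ⟨v, hv⟩ := him j x hx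
    rw [W.map_sub_apply, hv]
    have h1 : (W.H.map (T ≫ G ≫ μ ≫ i)).hom x = (W.H.map (μ ≫ i)).hom ((W.H.map (T ≫ G)).hom x) := by
      rw [← W.map_comp_apply, Category.assoc]
    have h2 := congrArg (fun t => t.hom v) hμ
    simp only [W.map_comp_apply] at h2
    rw [h1, hv, W.map_comp_apply, h2, sub_self]
    rfl
  obtain ⟨M, hM⟩ := hN N _ hν
  refine ⟨M, fun γ => ?_⟩
  have key : ∀ k : ℕ, Φ.map (γ ≫ pw G k - γ ≫ pw (T ≫ G - T ≫ G ≫ μ ≫ i) k) ≫ b = 0 := by
    intro k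
    induction k with
    | zero =>
      change Φ.map (γ ≫ 𝟙 N - γ ≫ 𝟙 N) ≫ b = 0
      rw [sub_self, Φ.map_zero, zero_comp]
    | succ k ih =>
      set δ := γ ≫ pw (T ≫ G - T ≫ G ≫ μ ≫ i) k with hδ
      have h1 : γ ≫ pw G (k + 1) - γ ≫ pw (T ≫ G - T ≫ G ≫ μ ≫ i) (k + 1) =
          (γ ≫ pw G k - δ) ≫ G + (δ ≫ T ≫ G ≫ μ) ≫ i := by
        have h2 : γ ≫ pw G (k + 1) = (γ ≫ pw G k) ≫ G := by
          rw [Category.assoc]; rfl
        have h3 : γ ≫ pw (T ≫ G - T ≫ G ≫ μ ≫ i) (k + 1) = δ ≫ (T ≫ G - T ≫ G ≫ μ ≫ i) := by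
          rw [hδ, Category.assoc]; rfl
        have h4 : δ ≫ T ≫ G = δ ≫ G := by rw [← Category.assoc, hT δ]
        rw [h2, h3, Preadditive.comp_sub, Preadditive.sub_comp, h4]
        simp only [Category.assoc]
        abel
      rw [h1, Φ.map_add, Preadditive.add_comp, Φ.map_comp, Category.assoc, hG, ← Category.assoc,
        ih, zero_comp, zero_add, Φ.map_comp, Category.assoc, hib, comp_zero]
  have h1 := key M
  rw [hM, comp_zero, sub_zero] at h1
  exact h1

theorem pw_pw {N : C} (f : N ⟶ N) (a m : ℕ) : pw (pw f a) m = pw f (a * m) := by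
  induction m with
  | zero => rfl
  | succ m ih =>
    rw [Nat.mul_succ, pw_add f, ← ih]
    rfl

/-- homologically trivial endomorphisms of `P` are locally nilpotent on the Chow groups -/
def HNil (W : MotivicHomology C F) (P : C) : Prop :=
  ∀ f : P ⟶ P, W.H.map f = 0 → ∀ (l : ℤ) (α : W.CH l P), ∃ m : ℕ, α ≫ pw f m = 0

lemma conclude (B : BaseChange W W' Φ) {N : C} {P : C'} (b : Φ.obj N ⟶ P) (f : P ⟶ P) (g : N ⟶ N)
    (hgf : Φ.map g ≫ b = b ≫ f) (l : ℤ) (α : W'.CH l P) (β : W.CH l N)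
    (hβ : Φ.map β ≫ b = (B.tate l).inv ≫ α) (a M : ℕ)
    (hM : Φ.map (β ≫ pw (pw g a) M) ≫ b = 0) : ∃ m : ℕ, α ≫ pw f m = 0 := by
  refine ⟨a * M, ?_⟩
  rw [pw_pw] at hM
  have h1 : Φ.map (pw g (a * M)) ≫ b = b ≫ pw f (a * M) := by
    rw [pw_map]; exact pw_comp hgf _
  have h2 : ((B.tate l).inv ≫ α) ≫ pw f (a * M) = 0 := by
    rw [← hβ, Category.assoc, ← h1, ← Category.assoc, ← Φ.map_comp]
    exact hM
  have h3 := congrArg ((B.tate l).hom ≫ ·) h2
  simpa using h3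

theorem hNil_transfer (B : BaseChange W W' Φ) (hN : NilHom W) (hR : Regular W) {P : C'} {t : ℕ∞}
    (hP : Spreads B t P) : HNil W' P := by
  intro f hf l α
  have hadd := B.additive
  obtain ⟨N, V, b, β, g, i, m, d, hd, hβ, hgf, hib, hL⟩ := hP f l ((B.tate l).inv ≫ α)
  obtain ⟨μ, hμ⟩ := hR V N i
  have hpw : pw g (1 + m) = g ≫ pw g m := by
    rw [pw_add]
    congr 1
    simp [pw]
  obtain ⟨M, hM⟩ := key hadd b i hib μ hμ (pw g (1 + m)) (pw f (1 + m))
    (by rw [pw_map]; exact pw_comp hgf _) (𝟙 N) l (fun γ => Category.comp_id γ) (by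
      intro j x hx
      obtain ⟨v, _, h1⟩ := hL j (fun k _ _ y _ => by rw [hf]; rfl) ((W.H.map g).hom x)
        (W.map_gr _ _ _ hx) (by
          change (W'.H.map b).hom (B.comp N ((W.H.map g).hom x)) = 0
          rw [B.comp_nat, ← W'.map_comp_apply, hgf, W'.map_comp_apply, hf]
          rfl)
      refine ⟨v, ?_⟩
      rw [Category.id_comp, hpw, W.map_comp_apply, h1]) hN
  exact conclude B b f g hgf l α β hβ (1 + m) M (hM β)

theorem lengthNil_transfer (B : BaseChange W W' Φ) (hA : ∀ M : C, MurreA W M) (hN : NilHom W)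
    (hR : Regular W) {r t : ℕ∞} (hL : ∀ N : C, LengthNil W r N) {P : C'} (hP : Spreads B t P) :
    LengthNil W' (r + t) P := by
  classical
  intro f l hf α
  have hadd := B.additive
  obtain ⟨N, V, b, β, g, i, m, d, hd, hβ, hgf, hib, hL'⟩ := hP f l ((B.tate l).inv ≫ α)
  obtain ⟨D⟩ := hA N
  obtain ⟨μ, hμ⟩ := hR V N i
  have hpw : pw g (1 + m) = g ≫ pw g m := by
    rw [pw_add]
    congr 1
    simp [pw]
  set s : Finset ℤ := D.s.filter (fun j => 2 * l ≤ j ∧ ((j - 2 * l).toNat : ℕ∞) ≤ r) with hs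
  set T : N ⟶ N := ∑ j ∈ s, D.p j with hTdef
  have hTi : T ≫ T = T := sum_p_idem D s
  have hTH : ∀ j, ∀ x ∈ W.gr N j, (W.H.map T).hom x = if j ∈ s then x else 0 :=
    fun j x hx => sum_p_apply D s j x hx
  have hT : ∀ γ : W.CH l N, γ ≫ T = γ := by
    intro γ
    obtain ⟨k, hk⟩ := hL N (𝟙 N - T) l (by
      intro n hn x hx
      rw [W.map_sub_apply, W.map_id_apply, hTH _ x hx]
      split_ifs with h
      · exact sub_self x
      · rw [sub_zero]
        by_cases h2 : (2 * l + (n : ℤ)) ∈ D.s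
        · exfalso
          apply h
          rw [hs, Finset.mem_filter]
          refine ⟨h2, by omega, ?_⟩
          have h3 : (2 * l + (n : ℤ) - 2 * l).toNat = n := by omega
          rw [h3]
          exact hn
        · exact eq_zero_of_not_mem_s D h2 hx) γ
    have hi : (𝟙 N - T) ≫ (𝟙 N - T) = 𝟙 N - T := by
      rw [Preadditive.sub_comp, Category.id_comp, Preadditive.comp_sub, Category.comp_id, hTi,
        sub_self, sub_zero]
    have h4 : ∀ k : ℕ, (𝟙 N - T) ≫ pw (𝟙 N - T) k = 𝟙 N - T := by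
      intro k
      induction k with
      | zero => exact Category.comp_id _
      | succ k ih =>
        change (𝟙 N - T) ≫ pw (𝟙 N - T) k ≫ (𝟙 N - T) = _
        rw [← Category.assoc, ih, hi]
    have h5 : γ ≫ (𝟙 N - T) = 0 := by
      have h6 : pw (𝟙 N - T) (k + 1) = pw (𝟙 N - T) k ≫ (𝟙 N - T) := rfl
      have h7 : γ ≫ pw (𝟙 N - T) (k + 1) = 0 := by
        rw [h6, ← Category.assoc, hk, zero_comp]
      rw [← NilAux.pw_comm, h4] at h7
      exact h7
    rw [Preadditive.comp_sub, Category.comp_id, sub_eq_zero] at h5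
    exact h5.symm
  have hf' : ∀ j k : ℤ, j ∈ s → j ≤ k → k ≤ j + d → ∀ y ∈ W'.gr P k,
      (W'.H.map f).hom y = 0 := by
    intro j k hj hjk hkd y hy
    rw [hs, Finset.mem_filter] at hj
    obtain ⟨_, hj1, hj2⟩ := hj
    have h3 : (2 * l + ((k - 2 * l).toNat : ℤ)) = k := by
      rw [Int.toNat_of_nonneg (by omega)]; omega
    refine hf (k - 2 * l).toNat ?_ y (by rw [h3]; exact hy)
    have h4 : (k - 2 * l).toNat ≤ (j - 2 * l).toNat + d := by omega
    calc ((k - 2 * l).toNat : ℕ∞) ≤ (((j - 2 * l).toNat + d : ℕ) : ℕ∞) := by exact_mod_cast h4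
      _ = ((j - 2 * l).toNat : ℕ∞) + (d : ℕ∞) := by push_cast; rfl
      _ ≤ r + t := add_le_add hj2 hd
  obtain ⟨M, hM⟩ := key hadd b i hib μ hμ (pw g (1 + m)) (pw f (1 + m))
    (by rw [pw_map]; exact pw_comp hgf _) T l hT (by
      intro j x hx
      rw [W.map_comp_apply, hTH j x hx]
      split_ifs with h
      · obtain ⟨v, _, h1⟩ := hL' j (fun k hk hk' => hf' j k h hk.le hk') ((W.H.map g).hom x)
          (W.map_gr _ _ _ hx) (by
            change (W'.H.map b).hom (B.comp N ((W.H.map g).hom x)) = 0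
            rw [B.comp_nat, ← W'.map_comp_apply, hgf, W'.map_comp_apply]
            exact hf' j j h le_rfl (by omega) _
              (W'.map_gr _ _ _ ((B.comp_gr N j x).1 hx)))
        exact ⟨v, by rw [hpw, W.map_comp_apply, h1]⟩
      · exact ⟨0, by rw [map_zero, map_zero]⟩) hN
  exact conclude B b f g hgf l α β hβ (1 + m) M (hM β)

end Pool.Agent.Helper15.ABC
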