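import Pool.Agent.Helper15.ABC.Finite
import Pool.Agent.Helper15.ABC.Transfer
import Pool.Agent.Helper88.MADR.Main

/-!
# (A), (B), (C) over all fields and over the algebraic closure of the prime field
-/

open CategoryTheory MonoidalCategory Limits TensorProduct
open Pool.Agent.Helper15.Murre Pool.Agent.Helper15.MADR
open Pool.Agent.Helper58.MAD Pool.Agent.Helper88.MADR

universe w v u

set_option linter.unusedSectionVars false

namespace Pool.Agent.Helper15.ABC

section one

variable {C : Type u} [Category.{v} C] [Preadditive C] [Linear ℚ C]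
  [MonoidalCategory C] [SymmetricCategory C] [MonoidalPreadditive C] [MonoidalLinear ℚ C]
  [RigidCategory C] [HasBinaryBiproducts C] [IsIdempotentComplete C]
  {F : Type w} [Field F] {W : MotivicHomology C F}

/-- if `T` acts as the identity on `CH_l(P)` and `f T` is homologically trivial, then `f` is
locally nilpotent on `CH_l(P)` -/
lemma nil_of_trunc (hN : NilHom W) {P : C} (f T : P ⟶ P) (l : ℤ)
    (hT : ∀ γ : W.CH l P, γ ≫ T = γ) (hf : W.H.map (T ≫ f) = 0) (α : W.CH l P) :
    ∃ m : ℕ, α ≫ pw f m = 0 := by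
  obtain ⟨m, hm⟩ := hN P (T ≫ f) hf
  refine ⟨m, ?_⟩
  have h1 : ∀ k : ℕ, α ≫ pw f k = α ≫ pw (T ≫ f) k := by
    intro k
    induction k with
    | zero => rfl
    | succ k ih =>
      change α ≫ pw f k ≫ f = α ≫ pw (T ≫ f) k ≫ (T ≫ f)
      rw [← Category.assoc, ih, ← Category.assoc α (pw (T ≫ f) k), ← Category.assoc _ T f,
        hT]
  rw [h1, hm, comp_zero]

lemma sum_filter {M : C} (D : CK W M) (l : ℤ) (r : ℕ∞) (hB : D.MurreB) (hL : Length W r)
    (γ : W.CH l M) : γ ≫ (∑ j ∈ D.s.filter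
      (fun j => 2 * l ≤ j ∧ ((j - 2 * l).toNat : ℕ∞) ≤ r), D.p j) = γ := by
  classical
  have h1 : γ ≫ (∑ j ∈ D.s, D.p j) = γ := by
    rw [D.sum_s, Category.comp_id]
  conv_rhs => rw [← h1]
  rw [Preadditive.comp_sum, Preadditive.comp_sum]
  apply Finset.sum_subset (Finset.filter_subset _ _)
  intro j hj hj'
  by_cases h2 : 2 * l ≤ j
  · have h3 : ¬ ((j - 2 * l).toNat : ℕ∞) ≤ r := fun h => hj' (by
      rw [Finset.mem_filter]; exact ⟨hj, h2, h⟩)
    rw [not_le] at h3
    have h4 := hL M D l _ h3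
    have h5 : γ ≫ D.p j ∈ D.Fil l ((j - 2 * l).toNat : ℤ) := by
      have h6 : 2 * l + ((j - 2 * l).toNat : ℤ) ≤ j := by
        rw [Int.toNat_of_nonneg (by omega)]; omega
      exact Submodule.mem_iSup_of_mem
        (⟨j, h6⟩ : {i' : ℤ // 2 * l + ((j - 2 * l).toNat : ℤ) ≤ i'})
        (D.mem_CH.2 (show (γ ≫ D.p j) ≫ D.p j = γ ≫ D.p j by rw [Category.assoc, D.idem]))
    rw [h4] at h5
    simpa using h5
  · exact (CK.MurreB_iff D).1 hB l j (by omega) γ

/-- (A), (B), (C) for all motives. -/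
def MurreABC (W : MotivicHomology C F) : Prop :=
  ∀ M : C, MurreA W M ∧ MurreC W M ∧ ∃ D : CK W M, D.MurreB

theorem MurreABC.kimura (h : MurreABC W) (M : C) : KimuraFinite M :=
  kimura_of_murreAC (W := W) (fun M => ⟨(h M).1, (h M).2.1⟩) M

theorem MurreABC.nilHom (h : MurreABC W) : NilHom W := nilHom_of_kimura h.kimura

theorem MurreABC.murreB (h : MurreABC W) {M : C} (D : CK W M) : D.MurreB :=
  murreB_of_murreC (fun M => (h M).2.1) D

theorem MurreABC.lengthNil (h : MurreABC W) {r : ℕ∞} (hL : Length W r) (P : C) :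
    LengthNil W r P := by
  classical
  intro f l hf α
  obtain ⟨D⟩ := (h P).1
  refine nil_of_trunc h.nilHom f _ l (fun γ => sum_filter D l r (h.murreB D) hL γ) ?_ α
  apply W.hext
  intro j x hx
  rw [W.map_comp_apply, sum_p_apply D _ j x hx]
  split_ifs with hj
  · rw [Finset.mem_filter] at hj
    obtain ⟨_, h1, h2⟩ := hj
    have h3 : (2 * l + ((j - 2 * l).toNat : ℤ)) = j := by
      rw [Int.toNat_of_nonneg (by omega)]; omega
    rw [hf (j - 2 * l).toNat h2 x (by rw [h3]; exact hx)]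
    rfl
  · rw [map_zero]
    rfl

theorem nilHom_of_hNil (h : ∀ P : C, HNil W P) : NilHom W := by
  intro M f hf
  have h0 : W.H.map (f ▷ (Mᘁ)) = 0 := by
    have := W.H_tensor_zero f (𝟙 (Mᘁ)) hf
    rwa [tensorHom_id] at this
  obtain ⟨m, hm⟩ := h (M ⊗ Mᘁ) (f ▷ (Mᘁ)) h0 0 (name W f)
  rw [NilAux.name_pw, NilAux.pw_comm] at hm
  exact ⟨m + 1, name_injective hm⟩

theorem LengthNil.hNil {r : ℕ∞} {P : C} (h : LengthNil W r P) : HNil W P := by
  intro f hf l α
  exact h f l (fun n _ x _ => by rw [hf]; rfl) α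

theorem murreABC_of_lengthNil (hA : ∀ M : C, MurreA W M) {r : ℕ∞} (h : ∀ P : C, LengthNil W r P) :
    MurreABC W ∧ Length W r := by
  have hB : ∀ (M : C) (D : CK W M), D.MurreB := by
    intro M D
    rw [CK.MurreB_iff]
    intro l i hi γ
    obtain ⟨m, hm⟩ := h M (D.p i) l (fun n _ x hx => by
      rw [D.homology i _ x hx, if_neg (by omega)]) (γ ≫ D.p i)
    have h1 : ∀ m : ℕ, (γ ≫ D.p i) ≫ pw (D.p i) m = γ ≫ D.p i := by
      intro m
      induction m with
      | zero => exact Category.comp_id _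
      | succ m ih =>
        change (γ ≫ D.p i) ≫ pw (D.p i) m ≫ D.p i = _
        rw [← Category.assoc, ih, Category.assoc, D.idem]
    rw [← h1 m, hm]
  refine ⟨fun M => ⟨hA M, murreC_of_murreB hB, (hA M).some, hB M _⟩, ?_⟩
  by_cases hr : r = ⊤
  · subst hr
    intro M D l n hn
    exact absurd hn (by simp)
  · obtain ⟨r, rfl⟩ := ENat.ne_top_iff_exists.1 hr
    exact length_of_lengthNil h

theorem HNil.retract {P Q : C} (R : Retract Q P) (h : HNil W P) : HNil W Q := by
  intro f hf l α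
  obtain ⟨m, hm⟩ := h (R.r ≫ f ≫ R.i) (by
    rw [Functor.map_comp, Functor.map_comp, hf, zero_comp, comp_zero]) l (α ≫ R.i)
  refine ⟨m, ?_⟩
  have h1 : f ≫ R.i = R.i ≫ (R.r ≫ f ≫ R.i) := by rw [R.retract_assoc]
  have h2 : R.i ≫ pw (R.r ≫ f ≫ R.i) m = pw f m ≫ R.i := (pw_comp h1 m).symm
  rw [Category.assoc, h2] at hm
  have h3 := congrArg (· ≫ R.r) hm
  simpa [R.retract] using h3

theorem HNil.twist {P : C} (h : HNil W P) (r : ℤ) : HNil W (P ⊗ W.T r) := by
  intro f hf l α
  let f' : P ⟶ P := (untwist W P r).inv ≫ (f ▷ W.T (-r)) ≫ (untwist W P r).hom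
  obtain ⟨m, hm⟩ := h f' (by
    have h0 : W.H.map (f ▷ W.T (-r)) = 0 := by
      have := W.H_tensor_zero f (𝟙 (W.T (-r))) hf
      rwa [tensorHom_id] at this
    rw [Functor.map_comp, Functor.map_comp, h0, zero_comp, comp_zero]) (l - r) (shiftCH W l r α)
  refine ⟨m, ?_⟩
  have h1 : (untwist W P r).hom ≫ f' = (f ▷ W.T (-r)) ≫ (untwist W P r).hom := by
    simp [f']
  have h2 : (untwist W P r).hom ≫ pw f' m = (pw f m ▷ W.T (-r)) ≫ (untwist W P r).hom := by
    have h3 := pw_comp h1.symm m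
    rw [NilAux.pw_whisker] at h3
    exact h3.symm
  apply shiftCH_injective (W := W)
  rw [← hm]
  unfold shiftCH
  simp only [comp_whiskerRight, Category.assoc]
  rw [← h2]

/-- Over the algebraic closure of a finite field, `CH_l(P) = CH_l(P_{2l})`. -/
theorem lengthNil_of_frobenius (hF : Frobenius W) (hA : ∀ M : C, MurreA W M) (hN : NilHom W)
    (P : C) : LengthNil W 0 P := by
  classical
  intro f l hf α
  obtain ⟨D⟩ := hA P
  refine nil_of_trunc hN f (D.p (2 * l)) l (fun γ => ?_) ?_ α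
  · set q : P ⟶ P := 𝟙 P - D.p (2 * l) with hq
    have hqq : q ≫ q = q := by
      rw [hq, Preadditive.sub_comp, Category.id_comp, Preadditive.comp_sub, Category.comp_id,
        D.idem, sub_self, sub_zero]
    obtain ⟨φ, c, Q, hφ, hQ, -, hc⟩ := hF P l (γ ≫ q)
    obtain ⟨s, hs⟩ := exists_degrees W P
    have h1 : W.H.map (q ≫ (Polynomial.aeval φ (∏ i ∈ s.erase (2 * l), Q i) : End P).asHom) = 0 := by
      apply W.hext
      intro j x hx
      rw [W.map_comp_apply, hq, W.map_sub_apply, W.map_id_apply, D.homology _ j x hx]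
      by_cases hj : j = 2 * l
      · rw [if_pos hj, sub_self, map_zero]
        rfl
      · rw [if_neg hj, sub_zero]
        by_cases hjs : j ∈ s
        · rw [← Finset.mul_prod_erase (s.erase (2 * l)) Q (Finset.mem_erase.2 ⟨hj, hjs⟩)]
          rw [Pool.Agent.Helper84.MADR.aeval_mul_kill φ _ _ x (hQ j x hx)]
          rfl
        · rw [hs j hjs x hx, map_zero]
          rfl
    obtain ⟨m, hm⟩ := hN P _ h1
    have h2 : (γ ≫ q) ≫ (q ≫ (Polynomial.aeval φ (∏ i ∈ s.erase (2 * l), Q i) : End P).asHom) =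
        (∏ i ∈ s.erase (2 * l), Q i).eval c • (γ ≫ q) := by
      rw [← Pool.Agent.Helper84.MADR.comp_aeval (γ ≫ q) φ c hφ, ← Category.assoc,
        Category.assoc γ q q, hqq]
    have h3 := Pool.Agent.Helper84.MADR.comp_pw_of_smul _ _ _ h2 m
    rw [hm, comp_zero] at h3
    have h4 : γ ≫ q = 0 := by
      refine (smul_eq_zero.1 h3.symm).resolve_left (pow_ne_zero _ ?_)
      rw [Polynomial.eval_prod]
      exact Finset.prod_ne_zero_iff.2 (fun i hi => hc i (Finset.ne_of_mem_erase hi))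
    rw [hq, Preadditive.comp_sub, Category.comp_id, sub_eq_zero] at h4
    exact h4.symm
  · apply W.hext
    intro j x hx
    rw [W.map_comp_apply, D.homology _ j x hx]
    split_ifs with hj
    · subst hj
      rw [hf 0 le_rfl x (by simpa using hx)]
      rfl
    · rw [map_zero]
      rfl

variable {C' : Type u} [Category.{v} C'] [Preadditive C'] [Linear ℚ C']
  [MonoidalCategory C'] [SymmetricCategory C'] [MonoidalPreadditive C'] [MonoidalLinear ℚ C']
  [RigidCategory C'] [HasBinaryBiproducts C'] [IsIdempotentComplete C']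
  {W' : MotivicHomology C' F} {Φ : C ⥤ C'}

theorem nilHom_descend (B : BaseChange W W' Φ) (h : NilHom W') : NilHom W := by
  have hadd := B.additive
  have hfaith := B.faithful
  intro N x hx
  obtain ⟨m, hm⟩ := h (Φ.obj N) (Φ.map x) (by
    apply W'.hext
    intro j y _
    obtain ⟨z, rfl⟩ := (B.comp N).surjective y
    rw [← B.comp_nat, hx]
    exact map_zero _)
  refine ⟨m, ?_⟩
  apply Φ.map_injective
  rw [pw_map, hm, Φ.map_zero]

theorem lengthNil_descend (B : BaseChange W W' Φ) {r : ℕ∞} {P : C}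
    (h : LengthNil W' r (Φ.obj P)) : LengthNil W r P := by
  have hadd := B.additive
  have hfaith := B.faithful
  intro f l hf α
  obtain ⟨m, hm⟩ := h (Φ.map f) l (by
    intro n hn x hx
    obtain ⟨y, rfl⟩ := (B.comp P).surjective x
    rw [← B.comp_nat, hf n hn y ((B.comp_gr P _ y).2 hx), map_zero])
    ((B.tate l).hom ≫ Φ.map α)
  refine ⟨m, ?_⟩
  apply Φ.map_injective
  rw [Φ.map_comp, pw_map, Φ.map_zero]
  have h1 := congrArg ((B.tate l).inv ≫ ·) hm
  simpa using h1

end one

end Pool.Agent.Helper15.ABC
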