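import Pool.Agent.Helper15.ABC.Class
import Pool.Agent.Helper88.MADR.Transfer
import Pool.Agent.Helper15.ABC.LiftLocal
import Pool.Agent.Helper15.ABC.Package

/-!
# Murre's conjectures for a class closed under products, and nilpotence on the Chow groups
-/

open CategoryTheory MonoidalCategory Limits TensorProduct
open Pool.Agent.Helper15.Murre Pool.Agent.Helper58.MAD Pool.Agent.Helper88.MADR

universe t w v u

set_option linter.unusedSectionVars false

namespace Pool.Agent.Helper15.ABC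

section defs

variable {C : Type u} [Category.{v} C] [Preadditive C] [Linear ℚ C]
  [MonoidalCategory C] [SymmetricCategory C] [RigidCategory C] {F : Type w} [Field F]

/-- If `f` is zero on `H_j(P)` for all `j ≥ 2l`, then `f` is locally nilpotent on `CH_l(P)`. -/
def WeakNil (W : MotivicHomology C F) (P : C) : Prop :=
  ∀ (f : P ⟶ P) (l : ℤ), (∀ j, 2 * l ≤ j → ∀ x ∈ W.gr P j, (W.H.map f).hom x = 0) →
    ∀ α : W.CH l P, ∃ m : ℕ, α ≫ pw f m = 0

end defs

variable {C : Type u} [Category.{v} C] [Preadditive C] [Linear ℚ C]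
  [MonoidalCategory C] [SymmetricCategory C] [MonoidalPreadditive C] [MonoidalLinear ℚ C]
  [RigidCategory C] {F : Type w} [Field F] {W : MotivicHomology C F}
  {ι : Type t} {h : ι → C}

/-- a truncated endomorphism has the same iterates -/
lemma pw_trunc {P : C} (f T : P ⟶ P) (l : ℤ) (S : Set (W.CH l P))
    (hS : ∀ γ ∈ S, γ ≫ f ∈ S) (hT : ∀ γ ∈ S, γ ≫ T = γ) {α : W.CH l P} (hα : α ∈ S) (k : ℕ) :
    α ≫ pw f k ∈ S ∧ α ≫ pw f k = α ≫ pw (T ≫ f) k := by
  induction k with
  | zero =>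
    refine ⟨?_, rfl⟩
    change α ≫ 𝟙 P ∈ S
    rwa [Category.comp_id]
  | succ k ih =>
    obtain ⟨h1, h2⟩ := ih
    refine ⟨?_, ?_⟩
    · change α ≫ pw f k ≫ f ∈ S
      rw [← Category.assoc]
      exact hS _ h1
    · change α ≫ pw f k ≫ f = α ≫ pw (T ≫ f) k ≫ (T ≫ f)
      rw [← Category.assoc, ← Category.assoc α (pw (T ≫ f) k), ← h2,
        ← Category.assoc (α ≫ pw f k) T f, hT _ h1]

lemma pw_self {P : C} {l : ℤ} {f : P ⟶ P} (hf : f ≫ f = f) (γ : W.CH l P) (hγ : γ ≫ f = γ) :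
    ∀ m : ℕ, γ ≫ pw f m = γ := by
  intro m
  induction m with
  | zero => exact Category.comp_id _
  | succ m ih =>
    change γ ≫ pw f m ≫ f = _
    rw [← Category.assoc, ih, hγ]

/-- (B) for all decompositions from local nilpotence -/
lemma WeakNil.murreB {P : C} (hP : WeakNil W P) (D : CK W P) : D.MurreB := by
  rw [CK.MurreB_iff]
  intro l i hi γ
  obtain ⟨m, hm⟩ := hP (D.p i) l (fun j hj x hx => by
    rw [D.homology i j x hx, if_neg (by omega)]) (γ ≫ D.p i)
  rw [← pw_self (D.idem i) (γ ≫ D.p i) (by rw [Category.assoc, D.idem]) m, hm]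

/-- (B) and (D) for all decompositions from strong local nilpotence -/
lemma StrongNil.murreBD {P : C} (hP : StrongNil W P) (D : CK W P) : D.MurreB ∧ D.MurreD := by
  have key : ∀ (l i : ℤ), i ≤ 2 * l → ∀ γ : W.CH l P, W.H.map (γ ≫ D.p i) = 0 → γ ≫ D.p i = 0 := by
    intro l i hi γ hγ
    obtain ⟨m, hm⟩ := hP (D.p i) l (fun j hj x hx => by
      rw [D.homology i j x hx, if_neg (by omega)]) (γ ≫ D.p i) hγ
    rw [← pw_self (D.idem i) (γ ≫ D.p i) (by rw [Category.assoc, D.idem]) m, hm]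
  constructor
  · rw [CK.MurreB_iff]
    intro l i hi γ
    apply key l i (by omega)
    apply W.hext
    intro j x _
    have h1 := D.homology i (2 * l) _ (W.map_gr γ _ x (W.mem_gr_tate l x))
    rw [if_neg (by omega)] at h1
    rw [W.map_comp_apply, h1]
    rfl
  · rw [CK.MurreD_iff]
    intro l α h1 h2
    rw [← h1]
    exact key l (2 * l) le_rfl α (by rw [h1, h2])

/-- the projector onto the part of weights `≥ r` -/
noncomputable def CK.above {M : C} (D : CK W M) (r : ℤ) : M ⟶ M := by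
  classical exact ∑ j ∈ D.s.filter (fun j => r ≤ j), D.p j

lemma comp_above {M : C} (D : CK W M) (r l : ℤ) (γ : W.CH l M)
    (hγ : ∀ j, j < r → γ ≫ D.p j = 0) : γ ≫ CK.above D r = γ := by
  classical
  unfold CK.above
  have h1 : γ ≫ (∑ j ∈ D.s, D.p j) = γ := by
    rw [D.sum_s, Category.comp_id]
  conv_rhs => rw [← h1]
  rw [Preadditive.comp_sum, Preadditive.comp_sum]
  apply Finset.sum_subset (Finset.filter_subset _ _)
  intro j hj hj'
  apply hγ
  by_contra h2
  exact hj' (Finset.mem_filter.2 ⟨hj, by omega⟩)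

section one

variable [HasBinaryBiproducts C] [IsIdempotentComplete C]

lemma above_homology {M : C} (D : CK W M) (r : ℤ) (f : M ⟶ M)
    (hf : ∀ j, r ≤ j → ∀ x ∈ W.gr M j, (W.H.map f).hom x = 0) :
    W.H.map (CK.above D r ≫ f) = 0 := by
  classical
  apply W.hext
  intro j x hx
  unfold CK.above
  rw [W.map_comp_apply, sum_p_apply D _ j x hx]
  split_ifs with hj
  · rw [Finset.mem_filter] at hj
    rw [hf j hj.2 x hx]
    rfl
  · rw [map_zero]
    rfl

/-- finite-dimensionality and (B) imply local nilpotence -/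
theorem weakNil_of_kimura {M : C} (hM : KimuraFinite M) (D : CK W M) (hD : D.MurreB) :
    WeakNil W M := by
  intro f l hf α
  obtain ⟨m, hm⟩ := nil_of_kimura (W := W) hM (CK.above D (2 * l) ≫ f) (above_homology D _ f hf)
  refine ⟨m, ?_⟩
  rw [(pw_trunc f (CK.above D (2 * l)) l Set.univ (fun _ _ => trivial) (fun γ _ =>
    comp_above D _ l γ (fun j hj => (CK.MurreB_iff D).1 hD l j hj γ)) (Set.mem_univ α) m).2, hm,
    comp_zero]

/-- finite-dimensionality, (B) and (D) imply strong local nilpotence -/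
theorem strongNil_of_kimura {M : C} (hM : KimuraFinite M) (D : CK W M) (hB : D.MurreB)
    (hD : D.MurreD) : StrongNil W M := by
  intro f l hf α hα
  obtain ⟨m, hm⟩ := nil_of_kimura (W := W) hM (CK.above D (2 * l + 1) ≫ f)
    (above_homology D _ f (fun j hj => hf j (by omega)))
  refine ⟨m, ?_⟩
  rw [(pw_trunc f (CK.above D (2 * l + 1)) l {γ | W.H.map γ = 0} (fun γ hγ => by
      change W.H.map (γ ≫ f) = 0
      rw [Functor.map_comp, show W.H.map γ = 0 from hγ, zero_comp]) (fun γ hγ =>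
    comp_above D _ l γ (fun j hj => by
      have hγ' : W.H.map γ = 0 := hγ
      rcases lt_or_eq_of_le (show j ≤ 2 * l by omega) with h1 | rfl
      · exact (CK.MurreB_iff D).1 hB l j h1 γ
      · exact (CK.MurreD_iff D).1 hD l (γ ≫ D.p (2 * l)) (by rw [Category.assoc, D.idem])
          (by rw [Functor.map_comp, hγ', zero_comp]))) (show α ∈ {γ | W.H.map γ = 0} from hα) m).2,
    hm, comp_zero]

/-- vanishing for pure objects of weight `w` from (B) -/
lemma pure_vanish {N : C} (hB : ∀ D : CK W N, D.MurreB) (w : ℤ) (hw : w < 0)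
    (hN : W.gr N w = ⊤) (α : W.CH 0 N) : α = 0 := by
  have h0 : ∀ x : W.H.obj N, x ∈ W.gr N w := fun x => by rw [hN]; trivial
  have h1 := (CK.MurreB_iff _).1 (hB (CK.single N w h0)) 0 w (by omega) α
  rwa [CK.single_p, Category.comp_id] at h1

lemma pure_vanish' {N : C} (hBD : ∀ D : CK W N, D.MurreB ∧ D.MurreD) (w : ℤ) (hw : w ≤ 0)
    (hN : W.gr N w = ⊤) : W.CHhom 0 N = ⊥ := by
  rw [eq_bot_iff]
  intro α hα
  rcases lt_or_eq_of_le hw with h1 | rfl
  · rw [pure_vanish (fun D => (hBD D).1) w h1 hN α]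
    exact Submodule.zero_mem _
  · have h0 : ∀ x : W.H.obj N, x ∈ W.gr N 0 := fun x => by rw [hN]; trivial
    have h1 := (CK.MurreD_iff _).1 (hBD (CK.single N 0 h0)).2 0 α (by
      rw [mul_zero, CK.single_p, Category.comp_id]) hα
    rw [h1]
    exact Submodule.zero_mem _

lemma Generated.twist (H : ProductClass W h) {N : C} (hN : Generated W h N) (n : ℤ) :
    Generated W h (N ⊗ W.T n) := by
  obtain ⟨X, m, ⟨R⟩⟩ := hN
  refine ⟨X, m + n, ⟨(retractTensor R (Retract.refl (W.T n))).trans (retractIso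
    ((α_ _ _ _) ≪≫ whiskerLeftIso (h X) (W.tateAdd m n).symm))⟩⟩

/-- the vanishing for pure objects, for arbitrary `l` -/
lemma vanish_of_pure (H : ProductClass W h) (Q : Prop)
    (hv : ∀ N : C, Generated W h N → ∀ w : ℤ, (w < 0 ∨ (w = 0 ∧ Q)) → W.gr N w = ⊤ →
      ∀ α : W.CH 0 N, W.H.map α = 0 → α = 0)
    {M : C} (hM : Generated W h M) (D : CK W M) (l i : ℤ) (hi : i < 2 * l ∨ (i = 2 * l ∧ Q))
    (α : W.CH l M) (hα : W.H.map (α ≫ D.p i) = 0) : α ≫ D.p i = 0 := by
  obtain ⟨P, f, e, hfe, hef, hP⟩ := D.split i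
  have h1 : W.H.map (α ≫ e) = 0 := by
    have : α ≫ e = (α ≫ D.p i) ≫ e := by
      rw [← hef]
      simp only [Category.assoc]
      rw [hfe, Category.comp_id]
    rw [this, Functor.map_comp, hα, zero_comp]
  have hPg : Generated W h (P ⊗ W.T (-l)) := Generated.twist H (hM.retract ⟨f, e, hfe⟩) (-l)
  have h2 : ∀ x : W.H.obj (P ⊗ W.T (-l)), x ∈ W.gr (P ⊗ W.T (-l)) (i + 2 * (-l)) := by
    intro x
    have := W.tensor_range (𝟙 P) (𝟙 (W.T (-l))) i (2 * (-l))
      (fun x => W.map_gr _ _ _ (hP x)) (fun x => W.map_gr _ _ _ (W.mem_gr_tate _ x)) x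
    rwa [MonoidalCategory.id_tensorHom_id, W.map_id_apply] at this
  have h3 : ∀ m : ℤ, m = 0 → ∀ β : W.CH m (P ⊗ W.T (-l)), W.H.map β = 0 → β = 0 := by
    rintro m rfl β hβ
    exact hv _ hPg (i + 2 * (-l)) (by
      rcases hi with h4 | ⟨h4, h5⟩
      · left; omega
      · right; exact ⟨by omega, h5⟩) (by
      rw [eq_top_iff]
      intro x _
      exact h2 x) β hβ
  let u : (P ⊗ W.T (-l)) ⊗ W.T l ≅ P :=
    eqToIso (by rw [neg_neg]) ≪≫ untwist W P (-l)
  have h4 : α ≫ e ≫ u.inv = 0 := by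
    apply shiftCH_injective (W := W) (M := P ⊗ W.T (-l)) l l
    apply h3 _ (by ring)
    apply shiftCH_hom
    rw [← Category.assoc, Functor.map_comp, h1, zero_comp]
  have h5 : α ≫ e = 0 := by
    have := congrArg (· ≫ u.hom) h4
    simpa using this
  rw [← hef, ← Category.assoc, h5, zero_comp]

/-- (B) from the vanishing for pure objects -/
lemma murreB_of_pure (H : ProductClass W h)
    (hv : ∀ N : C, Generated W h N → ∀ w : ℤ, w < 0 → W.gr N w = ⊤ → ∀ α : W.CH 0 N, α = 0)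
    {M : C} (hM : Generated W h M) (D : CK W M) : D.MurreB := by
  rw [CK.MurreB_iff]
  intro l i hi α
  refine vanish_of_pure H False (fun N hN w hw hw' α _ => hv N hN w (by tauto) hw' α) hM D l i
    (Or.inl hi) α ?_
  apply W.hext
  intro j x _
  have h1 := D.homology i (2 * l) _ (W.map_gr α _ x (W.mem_gr_tate l x))
  rw [if_neg (by omega)] at h1
  rw [W.map_comp_apply, h1]
  rfl

/-- (B) and (D) from the vanishing for pure objects -/
lemma murreBD_of_pure (H : ProductClass W h)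
    (hv : ∀ N : C, Generated W h N → ∀ w : ℤ, w ≤ 0 → W.gr N w = ⊤ → W.CHhom 0 N = ⊥)
    {M : C} (hM : Generated W h M) (D : CK W M) : D.MurreB ∧ D.MurreD := by
  have key : ∀ (l i : ℤ), i ≤ 2 * l → ∀ α : W.CH l M, W.H.map (α ≫ D.p i) = 0 →
      α ≫ D.p i = 0 := by
    intro l i hi α hα
    refine vanish_of_pure H True (fun N hN w hw hw' α hα => ?_) hM D l i
      (by rcases lt_or_eq_of_le hi with h1 | h1 <;> tauto) α hα
    have h1 : α ∈ W.CHhom 0 N := hα
    rw [hv N hN w (by rcases hw with h1 | ⟨h1, _⟩ <;> omega) hw'] at h1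
    simpa using h1
  constructor
  · rw [CK.MurreB_iff]
    intro l i hi α
    apply key l i hi.le
    apply W.hext
    intro j x _
    have h1 := D.homology i (2 * l) _ (W.map_gr α _ x (W.mem_gr_tate l x))
    rw [if_neg (by omega)] at h1
    rw [W.map_comp_apply, h1]
    rfl
  · rw [CK.MurreD_iff]
    intro l α h1 h2
    rw [← h1]
    exact key l (2 * l) le_rfl α (by rw [h1, h2])

/-- homologically trivial endomorphisms are nilpotent if they are locally nilpotent on the Chow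
groups of the squares -/
lemma ProductClass.nil (H : ProductClass W h) (hN : ∀ X : ι, HNil W (h X)) (X : ι)
    (f : h X ⟶ h X) (hf : W.H.map f = 0) : ∃ m : ℕ, pw f m = 0 := by
  obtain ⟨Z, n, ⟨e⟩⟩ := H.end_iso X
  have h0 : W.H.map (f ▷ ((h X)ᘁ)) = 0 := by
    have := W.H_tensor_zero f (𝟙 ((h X)ᘁ)) hf
    rwa [tensorHom_id] at this
  have h1 : HNil W (h X ⊗ (h X)ᘁ) := HNil.retract (retractIso e) (HNil.twist (hN Z) n)
  obtain ⟨m, hm⟩ := h1 (f ▷ ((h X)ᘁ)) h0 0 (name W f)
  rw [NilAux.name_pw, NilAux.pw_comm] at hm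
  exact ⟨m + 1, name_injective hm⟩

lemma WeakNil.hNil {P : C} (hP : WeakNil W P) : HNil W P := fun f hf l α =>
  hP f l (fun j _ x _ => by rw [hf]; rfl) α

/-- strong local nilpotence for all objects of the class implies local nilpotence of the
homologically trivial endomorphisms -/
lemma nil_of_strongNil (H : ProductClass W h) (hS : ∀ X : ι, StrongNil W (h X)) (X : ι)
    (f : h X ⟶ h X) (hf : W.H.map f = 0) : ∃ m : ℕ, pw f m = 0 := by
  obtain ⟨Z, n, ⟨e⟩⟩ := H.end_iso X
  have h0 : W.H.map (f ▷ ((h X)ᘁ)) = 0 := by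
    have := W.H_tensor_zero f (𝟙 ((h X)ᘁ)) hf
    rwa [tensorHom_id] at this
  have h1 : StrongNil W (h X ⊗ (h X)ᘁ) := StrongNil.retract (retractIso e) ((hS Z).twist n)
  have h2 : W.H.map (name W f) = 0 := by
    have h3 : name W f = name W (𝟙 _) ≫ f ▷ ((h X)ᘁ) := by simp [name]
    rw [h3, Functor.map_comp, h0, comp_zero]
  obtain ⟨m, hm⟩ := h1 (f ▷ ((h X)ᘁ)) 0 (fun j _ x _ => by rw [h0]; rfl) (name W f) h2
  rw [NilAux.name_pw, NilAux.pw_comm] at hm
  exact ⟨m + 1, name_injective hm⟩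

/-- The equivalence of (A), (B), (C), finite-dimensionality and local nilpotence for a class closed
under products. -/
theorem ProductClass.tfae_abc (H : ProductClass W h) :
    [∀ X : ι, MurreA W (h X) ∧ MurreC W (h X),
      ∀ X : ι, MurreA W (h X) ∧ ∀ D : CK W (h X), D.MurreB,
      ∀ X : ι, KimuraFinite (h X) ∧ ∃ D : CK W (h X), D.MurreB,
      ∀ X : ι, KunnethHom W (h X) ∧ WeakNil W (h X),
      (∀ X : ι, MurreA W (h X)) ∧
        ∀ N : C, Generated W h N → ∀ w : ℤ, w < 0 → W.gr N w = ⊤ → ∀ α : W.CH 0 N, α = 0,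
      ∀ N : C, Generated W h N → MurreA W N ∧ (∀ D : CK W N, D.MurreB) ∧ MurreC W N ∧
        KimuraFinite N].TFAE := by
  tfae_have 1 → 2 := by
    intro h1 X
    have h0 := (H.tfae (fun X => (h1 X).1)).out 0 1
    exact ⟨(h1 X).1, fun D => h0.1 (fun X => (h1 X).2) X D⟩
  tfae_have 2 → 3 := by
    intro h2 X
    have h0 := (H.tfae (fun X => (h2 X).1)).out 1 2
    exact h0.1 (fun X => (h2 X).2) X
  tfae_have 3 → 1 := by
    intro h3 X
    have hA : ∀ X, MurreA W (h X) := fun X => ⟨(h3 X).2.choose⟩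
    have h0 := (H.tfae hA).out 2 0
    exact ⟨hA X, h0.1 h3 X⟩
  tfae_have 2 → 6 := by
    intro h2
    have h0 := (H.tfae (fun X => (h2 X).1)).out 1 3
    exact h0.1 (fun X => (h2 X).2)
  tfae_have 3 → 4 := fun h3 X => ⟨kunnethHom_of_murreA ⟨(h3 X).2.choose⟩,
    weakNil_of_kimura (h3 X).1 _ (h3 X).2.choose_spec⟩
  tfae_have 4 → 2 := fun h4 X => ⟨exists_CK_local
    (H.nil (fun X => (h4 X).2.hNil) X) (h4 X).1, fun D => (h4 X).2.murreB D⟩
  tfae_have 6 → 5 := fun h6 => ⟨fun X => (h6 _ (H.self X)).1,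
    fun N hN w hw hw' α => pure_vanish (h6 N hN).2.1 w hw hw' α⟩
  tfae_have 5 → 2 := fun h5 X => ⟨h5.1 X, fun D => murreB_of_pure H h5.2 (H.self X) D⟩
  tfae_finish

/-- Murre's conjectures (A)-(D) for a class closed under products. -/
theorem ProductClass.tfae_abcd (H : ProductClass W h) :
    [∀ X : ι, MurreC W (h X) ∧ ∃ D : CK W (h X), D.MurreD,
      ∀ X : ι, KunnethHom W (h X) ∧ StrongNil W (h X),
      (∀ X : ι, MurreA W (h X)) ∧
        ∀ N : C, Generated W h N → ∀ w : ℤ, w ≤ 0 → W.gr N w = ⊤ → W.CHhom 0 N = ⊥,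
      ∀ N : C, Generated W h N → MurreA W N ∧ (∀ D : CK W N, D.MurreB ∧ D.MurreD) ∧
        MurreC W N].TFAE := by
  have key : ∀ (_ : ∀ X : ι, MurreA W (h X)) (_ : ∀ (X : ι) (D : CK W (h X)), D.MurreB ∧ D.MurreD),
      ∀ X : ι, MurreC W (h X) ∧ ∃ D : CK W (h X), D.MurreD := by
    intro hA hBD X
    exact ⟨H.murreC_of_murreB (fun X D => (hBD X D).1) X, (hA X).some, (hBD X _).2⟩
  tfae_have 1 → 4 := by
    intro h1 N hN
    obtain ⟨h2, h3, h4⟩ := (H.murreD_iff (fun X => ⟨(h1 X).2.choose⟩)).1 h1 N hN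
    exact ⟨h2, h4, h3⟩
  tfae_have 4 → 2 := by
    intro h4 X
    have hA : ∀ X, MurreA W (h X) := fun X => (h4 _ (H.self X)).1
    have hC : ∀ X, MurreC W (h X) := fun X => (h4 _ (H.self X)).2.2
    obtain ⟨h5, h6⟩ := (h4 _ (H.self X)).2.1 (hA X).some
    have h7 := (H.tfae hA).out 0 2
    exact ⟨kunnethHom_of_murreA (hA X), strongNil_of_kimura (h7.1 hC X).1 _ h5 h6⟩
  tfae_have 2 → 1 := by
    intro h2
    exact key (fun X => exists_CK_local (nil_of_strongNil H (fun X => (h2 X).2) X) (h2 X).1)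
      (fun X D => StrongNil.murreBD (h2 X).2 D)
  tfae_have 4 → 3 := fun h4 => ⟨fun X => (h4 _ (H.self X)).1,
    fun N hN w hw hw' => pure_vanish' (h4 N hN).2.1 w hw hw'⟩
  tfae_have 3 → 1 := fun h3 => key h3.1 (fun X D => murreBD_of_pure H h3.2 (H.self X) D)
  tfae_finish

end one

end Pool.Agent.Helper15.ABC
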