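import Mathlib

/-!
# A ring-theoretic lemma on nil ideals

Let `J` be an ideal of a `ℚ`-algebra `R`, `e` an idempotent, such that the corners `e J e` and
`(1-e) J (1-e)` are nil of bounded index. Then `J` is nil.
-/

open Polynomial

namespace Pool.Agent.Helper15.ABC

variable {R : Type*} [Ring R]

/-- if `1 - t x` is a unit in `R[t]` then `x` is nilpotent -/
lemma nilpotent_of_isUnit {x : R} (h : IsUnit (1 - X * C x : R[X])) : IsNilpotent x := by
  obtain ⟨p, hp⟩ := h.exists_right_inv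
  have h1 : ∀ k, p.coeff k = x ^ k := by
    intro k
    induction k with
    | zero =>
      have h2 := congrArg (fun q => q.coeff 0) hp
      simp only [sub_mul, one_mul, coeff_sub, mul_assoc, coeff_X_mul_zero, coeff_one_zero] at h2
      simpa using h2
    | succ k ih =>
      have h2 := congrArg (fun q => q.coeff (k + 1)) hp
      simp only [sub_mul, one_mul, coeff_sub, mul_assoc, coeff_X_mul, coeff_C_mul] at h2
      rw [coeff_one] at h2
      simp only [Nat.add_eq_zero_iff, one_ne_zero, and_false, ↓reduceIte] at h2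
      rw [sub_eq_zero.1 h2, ih, pow_succ']
  refine ⟨p.natDegree + 1, ?_⟩
  rw [← h1]
  exact coeff_eq_zero_of_natDegree_lt (by omega)

lemma eq_zero_of_eval [Algebra ℚ R] (p : R[X])
    (h : ∀ q : ℚ, p.eval (algebraMap ℚ R q) = 0) : p = 0 := by
  ext k
  rw [coeff_zero]
  by_contra hk
  obtain ⟨φ, hφ⟩ : ∃ φ : Module.Dual ℚ R, φ (p.coeff k) ≠ 0 := by
    by_contra hc
    push Not at hc
    exact hk ((Module.forall_dual_apply_eq_zero_iff ℚ _).1 hc)
  let P : ℚ[X] := ∑ i ∈ Finset.range (p.natDegree + 1), monomial i (φ (p.coeff i))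
  have hP : P = 0 := by
    apply Polynomial.funext
    intro q
    rw [eval_zero]
    have h1 := congrArg φ (h q)
    rw [eval_eq_sum_range, map_sum, map_zero] at h1
    rw [← h1]
    simp only [P, eval_finsetSum, eval_monomial]
    apply Finset.sum_congr rfl
    intro i _
    rw [← map_pow, ← Algebra.commutes, ← Algebra.smul_def, map_smul, smul_eq_mul, mul_comm]
  have h2 : P.coeff k = φ (p.coeff k) := by
    simp only [P, finsetSum_coeff, coeff_monomial]
    rw [Finset.sum_ite_eq']
    split_ifs with h3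
    · rfl
    · rw [Finset.mem_range, not_lt] at h3
      rw [coeff_eq_zero_of_natDegree_lt (by omega), map_zero]
  rw [hP, coeff_zero] at h2
  exact hφ h2.symm

/-- the nil condition passes to polynomials -/
lemma pow_eq_zero_poly [Algebra ℚ R] (J : AddSubgroup R) (hs : ∀ (q : ℚ), ∀ x ∈ J, q • x ∈ J)
    (n : ℕ) (h : ∀ x ∈ J, x ^ n = 0) (p : R[X]) (hp : ∀ k, p.coeff k ∈ J) : p ^ n = 0 := by
  apply eq_zero_of_eval
  intro q
  have h0 : ∀ r : R, Commute (algebraMap ℚ R q) r := fun r => Algebra.commutes q r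
  have h1 : (p ^ n).eval (algebraMap ℚ R q) = (p.eval (algebraMap ℚ R q)) ^ n := by
    have h2 := (eval₂RingHom' (RingHom.id R) (algebraMap ℚ R q) (fun a => (h0 a).symm)).map_pow p n
    exact h2
  rw [h1]
  apply h
  rw [eval_eq_sum_range]
  apply AddSubgroup.sum_mem
  intro i _
  rw [← map_pow, ← Algebra.commutes, ← Algebra.smul_def]
  exact hs _ _ (hp i)

/-- The block inversion. -/
lemma isUnit_block {S : Type*} [Ring S] (α β γ δ : S) (h1 : α * γ = 0) (h2 : α * δ = 0)
    (h3 : β * β = 0) (h4 : β * α = 0) (h5 : γ * γ = 0) (h6 : γ * δ = 0) (h7 : δ * α = 0)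
    (h8 : δ * β = 0) (hα : IsNilpotent α) (A : S) (hA1 : (1 - α) * A = 1) (hA2 : A * (1 - α) = 1)
    (hG : IsNilpotent (δ + γ * A * β)) : IsUnit (1 - (α + β + γ + δ)) := by
  have e1 : A = 1 + α * A := by
    rw [sub_mul, one_mul, sub_eq_iff_eq_add] at hA1
    exact hA1
  have e2 : A = 1 + A * α := by
    rw [mul_sub, mul_one, sub_eq_iff_eq_add] at hA2
    exact hA2
  have e3 : γ * A * γ = 0 := by
    rw [e2, mul_add, mul_one, add_mul, h5, zero_add, mul_assoc, mul_assoc, h1, mul_zero, mul_zero]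
  have e4 : β * A * β = 0 := by
    rw [e1, mul_add, mul_one, add_mul, h3, zero_add, ← mul_assoc, h4, zero_mul, zero_mul]
  set G := δ + γ * A * β with hGdef
  clear_value G
  have g1 : α * G = 0 := by
    rw [hGdef, mul_add, h2, zero_add, ← mul_assoc, ← mul_assoc, h1, zero_mul, zero_mul]
  have g2 : γ * G = 0 := by
    rw [hGdef, mul_add, h6, zero_add, ← mul_assoc, ← mul_assoc, h5, zero_mul, zero_mul]
  have g3 : G * α = 0 := by
    rw [hGdef, add_mul, h7, zero_add, mul_assoc, h4, mul_zero]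
  have g4 : G * β = 0 := by
    rw [hGdef, add_mul, h8, zero_add, mul_assoc, h3, mul_zero]
  have g5 : G * (A * β) = 0 := by
    rw [e1, add_mul, one_mul, mul_add, g4, zero_add, ← mul_assoc, ← mul_assoc, g3, zero_mul,
      zero_mul]
  have f1 : (1 - γ * A) * (1 - α) = 1 - α - γ := by
    rw [sub_mul, one_mul, mul_assoc, hA2, mul_one]
  have f2 : (1 - α - γ) * (1 - G) = 1 - α - γ - G := by
    rw [mul_sub, mul_one, sub_mul, sub_mul, one_mul, g1, g2, sub_zero, sub_zero]
  have f3 : (1 - α - γ - G) * (1 - A * β) = 1 - (α + β + γ + δ) := by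
    have f4 : (1 - α - γ - G) * (A * β) = β - γ * A * β := by
      rw [sub_mul, sub_mul, g5, sub_zero, ← mul_assoc, hA1, one_mul, ← mul_assoc]
    rw [mul_sub, mul_one, f4, hGdef]
    abel
  have u1 : IsUnit (1 - γ * A) := by
    apply IsNilpotent.isUnit_one_sub
    refine ⟨2, ?_⟩
    rw [pow_two, ← mul_assoc, e3, zero_mul]
  have u2 : IsUnit (1 - A * β) := by
    apply IsNilpotent.isUnit_one_sub
    refine ⟨2, ?_⟩
    rw [pow_two, mul_assoc, ← mul_assoc β, e4, mul_zero]
  rw [← f3, ← f2, ← f1]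
  exact ((u1.mul hα.isUnit_one_sub).mul hG.isUnit_one_sub).mul u2

theorem nil_of_corners [Algebra ℚ R] (J : TwoSidedIdeal R) (e : R) (he : e * e = e) (n m : ℕ)
    (h1 : ∀ x ∈ J, (e * x * e) ^ n = 0) (h2 : ∀ x ∈ J, ((1 - e) * x * (1 - e)) ^ m = 0)
    (x : R) (hx : x ∈ J) : IsNilpotent x := by
  set e' : R := 1 - e with he'
  have q1 : e * e' = 0 := by rw [he', mul_sub, mul_one, he, sub_self]
  have q2 : e' * e = 0 := by rw [he', sub_mul, one_mul, he, sub_self]
  have q3 : e' * e' = e' := by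
    conv_lhs => rw [he']
    rw [sub_mul, one_mul, q1, sub_zero]
  have z1 : ∀ y z w : R, (y * e) * (e' * z * w) = 0 := fun y z w => by
    rw [mul_assoc, mul_assoc e', ← mul_assoc e, q1, zero_mul, mul_zero]
  have z2 : ∀ y z w : R, (y * e') * (e * z * w) = 0 := fun y z w => by
    rw [mul_assoc, mul_assoc e, ← mul_assoc e', q2, zero_mul, mul_zero]
  apply nilpotent_of_isUnit
  have hα : IsNilpotent (X * C (e * x * e) : R[X]) := by
    refine ⟨n, ?_⟩
    rw [(commute_X _).mul_pow, ← C_pow, h1 x hx, C_0, mul_zero]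
  obtain ⟨u, hu⟩ := hα.isUnit_one_sub
  have hA1 : (1 - X * C (e * x * e)) * (↑u⁻¹ : R[X]) = 1 := by rw [← hu]; exact u.mul_inv
  have hA2 : (↑u⁻¹ : R[X]) * (1 - X * C (e * x * e)) = 1 := by rw [← hu]; exact u.inv_mul
  have key : ∀ y z : R, y * z = 0 → (X * C y : R[X]) * (X * C z) = 0 := by
    intro y z h
    rw [mul_assoc, ← mul_assoc (C y), ← X_mul_C, mul_assoc, ← C_mul, h, C_0, mul_zero, mul_zero]
  have hsum : (X * C x : R[X]) = X * C (e * x * e) + X * C (e * x * e') + X * C (e' * x * e) +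
      X * C (e' * x * e') := by
    rw [← mul_add, ← mul_add, ← mul_add, ← C_add, ← C_add, ← C_add]
    congr 2
    rw [he']
    noncomm_ring
  rw [hsum]
  refine isUnit_block _ _ _ _ (key _ _ ?_) (key _ _ ?_) (key _ _ ?_) (key _ _ ?_) (key _ _ ?_)
    (key _ _ ?_) (key _ _ ?_) (key _ _ ?_) hα _ hA1 hA2 ?_
  · exact z1 _ _ _
  · exact z1 _ _ _
  · exact z2 _ _ _
  · exact z2 _ _ _
  · exact z1 _ _ _
  · exact z1 _ _ _
  · exact z2 _ _ _
  · exact z2 _ _ _
  · -- the Schur complement
    have hf : (X * C (e' * x * e') + X * C (e' * x * e) * (↑u⁻¹ : R[X]) * (X * C (e * x * e')) :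
        R[X]) = X * (C (e' * x * e') + C (e' * x * e) * (X * (↑u⁻¹ : R[X])) * C (e * x * e')) := by
      rw [mul_add]
      congr 1
      simp only [mul_assoc]
      congr 2
      simp only [← mul_assoc]
      congr 1
      exact (X_mul).symm
    rw [hf]
    refine ⟨m, ?_⟩
    rw [(commute_X _).mul_pow]
    let K : AddSubgroup R :=
      { carrier := {y | y ∈ J ∧ e' * y * e' = y}
        add_mem' := by
          rintro a b ⟨ha, ha'⟩ ⟨hb, hb'⟩
          exact ⟨J.add_mem ha hb, by rw [mul_add, add_mul, ha', hb']⟩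
        zero_mem' := ⟨J.zero_mem, by simp⟩
        neg_mem' := by
          rintro a ⟨ha, ha'⟩
          exact ⟨J.neg_mem ha, by rw [mul_neg, neg_mul, ha']⟩ }
    rw [mul_eq_zero_of_right]
    apply pow_eq_zero_poly K
    · rintro q y ⟨hy, hy'⟩
      refine ⟨?_, ?_⟩
      · rw [Algebra.smul_def]
        exact J.mul_mem_left _ _ hy
      · rw [mul_smul_comm, smul_mul_assoc, hy']
    · rintro y ⟨hy, hy'⟩
      rw [← hy']
      exact h2 y hy
    · intro k
      rw [coeff_add]
      apply AddSubgroup.add_mem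
      · rw [coeff_C]
        split_ifs
        · refine ⟨J.mul_mem_right _ _ (J.mul_mem_left _ _ hx), ?_⟩
          simp only [← mul_assoc]
          rw [q3, mul_assoc _ e' e', q3]
        · exact K.zero_mem
      · rw [coeff_mul_C, coeff_C_mul]
        refine ⟨J.mul_mem_left _ _ (J.mul_mem_right _ _ (J.mul_mem_left _ _ hx)), ?_⟩
        simp only [← mul_assoc]
        rw [q3, mul_assoc _ e' e', q3]

end Pool.Agent.Helper15.ABC
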