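import Pool.Agent.Helper15.ABC.KimuraNil
import Pool.Agent.Helper15.ABC.Corners
import Pool.Agent.Helper58.MAD.Lift
import Pool.Agent.Helper58.MAD.Basic
import Pool.Agent.Helper58.MAD.Nil

/-!
# Finite-dimensionality implies nilpotence
-/

open CategoryTheory MonoidalCategory Limits TensorProduct
open Pool.Agent.Helper15.Murre Pool.Agent.Helper58.MAD

universe w v u

namespace Pool.Agent.Helper15.ABC

variable {C : Type u} [Category.{v} C] [Preadditive C] [Linear ℚ C]
  [MonoidalCategory C] [SymmetricCategory C] [MonoidalPreadditive C] [MonoidalLinear ℚ C]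
  [RigidCategory C] {F : Type w} [Field F] {W : MotivicHomology C F}

lemma pw_zero_of_asym {ε : ℚ} (hε : ε * ε = 1) {M : C} (n : ℕ)
    (h : asym ε M n = 0) (f : M ⟶ M) (hf : W.H.map f = 0) : pw f (n + 1) = 0 := by
  cases n with
  | zero =>
    have h1 : 𝟙 (𝟙_ C) = 0 := h
    have h2 := congrArg (fun t => (λ_ M).inv ≫ (t ▷ M) ≫ (λ_ M).hom) h1
    have h3 : 𝟙 M = 0 := by simpa using h2
    change 𝟙 M ≫ f = 0
    rw [h3, zero_comp]
  | succ n =>
    have h1 := pw_eq_zero_of_asym (W := W) hε n h f hf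
    change (pw f n ≫ f) ≫ f = 0
    rw [h1, zero_comp, zero_comp]

omit [Linear ℚ C] [MonoidalCategory C] [SymmetricCategory C] [MonoidalPreadditive C]
  [MonoidalLinear ℚ C] [RigidCategory C] [Preadditive C] in
lemma pw_corner {M P : C} (i : P ⟶ M) (r : M ⟶ P) (hir : i ≫ r = 𝟙 P) (z : P ⟶ P) (k : ℕ) :
    pw (r ≫ z ≫ i) (k + 1) = r ≫ pw z (k + 1) ≫ i := by
  induction k with
  | zero =>
    change 𝟙 M ≫ _ = r ≫ (𝟙 P ≫ z) ≫ i
    simp
  | succ k ih =>
    change pw (r ≫ z ≫ i) (k + 1) ≫ (r ≫ z ≫ i) = r ≫ (pw z (k + 1) ≫ z) ≫ i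
    rw [ih]
    simp only [Category.assoc]
    rw [reassoc_of% hir]

lemma corner_nil {ε : ℚ} (hε : ε * ε = 1) {M P : C} (n : ℕ) (h : asym ε P n = 0)
    (i : P ⟶ M) (r : M ⟶ P) (hir : i ≫ r = 𝟙 P) (y : M ⟶ M) (hy : W.H.map y = 0) :
    pw ((r ≫ i) ≫ y ≫ (r ≫ i)) (n + 1) = 0 := by
  have h1 : (r ≫ i) ≫ y ≫ (r ≫ i) = r ≫ (i ≫ y ≫ r) ≫ i := by simp only [Category.assoc]
  rw [h1, pw_corner i r hir, pw_zero_of_asym (W := W) hε n h, zero_comp, comp_zero]
  rw [Functor.map_comp, Functor.map_comp, hy, zero_comp, comp_zero]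

/-- If `M` is finite-dimensional in the sense of Kimura and O'Sullivan then its homologically
trivial endomorphisms are nilpotent. -/
theorem nil_of_kimura [HasBinaryBiproducts C] {M : C} (h : KimuraFinite M) (x : M ⟶ M)
    (hx : W.H.map x = 0) : ∃ m : ℕ, pw x m = 0 := by
  obtain ⟨P, Q, n, m, ⟨e⟩, hP, hQ⟩ := h
  rw [extVanish_iff] at hP
  rw [symVanish_iff] at hQ
  let E : End M := End.of ((e.hom ≫ biprod.fst) ≫ (biprod.inl ≫ e.inv))
  have hE : E * E = E := by
    apply End.ext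
    change ((e.hom ≫ biprod.fst) ≫ (biprod.inl ≫ e.inv)) ≫ (e.hom ≫ biprod.fst) ≫
      (biprod.inl ≫ e.inv) = (e.hom ≫ biprod.fst) ≫ (biprod.inl ≫ e.inv)
    simp
  have hE' : (1 - E : End M).asHom = (e.hom ≫ biprod.snd) ≫ (biprod.inr ≫ e.inv) := by
    change 𝟙 M - (e.hom ≫ biprod.fst) ≫ (biprod.inl ≫ e.inv) = _
    rw [sub_eq_iff_eq_add]
    have h1 : e.hom ≫ (biprod.fst ≫ biprod.inl + biprod.snd ≫ biprod.inr) ≫ e.inv = 𝟙 M := by
      rw [biprod.total]; simp
    rw [← h1]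
    simp only [Preadditive.comp_add, Preadditive.add_comp, Category.assoc]
    abel
  have h1 : ∀ y ∈ homIdeal W M, (E * y * E) ^ (n + 1) = 0 := by
    intro y hy
    rw [mem_homIdeal] at hy
    have h2 := corner_nil (W := W) (ε := 1) (by norm_num) n hP (biprod.inl ≫ e.inv)
      (e.hom ≫ biprod.fst) (by simp) y.asHom hy
    rw [pw_eq_pow_lift] at h2
    apply End.ext
    change _ = (0 : M ⟶ M)
    rw [← h2]
    congr 2
  have h2 : ∀ y ∈ homIdeal W M, ((1 - E) * y * (1 - E)) ^ (m + 1) = 0 := by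
    intro y hy
    rw [mem_homIdeal] at hy
    have h2 := corner_nil (W := W) (ε := -1) (by norm_num) m hQ (biprod.inr ≫ e.inv)
      (e.hom ≫ biprod.snd) (by simp) y.asHom hy
    rw [pw_eq_pow_lift] at h2
    apply End.ext
    change _ = (0 : M ⟶ M)
    rw [← h2]
    congr 2
    apply End.ext
    change (1 - E : End M).asHom ≫ y.asHom ≫ (1 - E : End M).asHom = _
    rw [hE']
  obtain ⟨k, hk⟩ := nil_of_corners (homIdeal W M) E hE (n + 1) (m + 1) h1 h2 (End.of x)
    ((mem_homIdeal _).2 hx)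
  refine ⟨k, ?_⟩
  rw [pw_eq_pow_lift, hk]

/-- If all objects are finite-dimensional in the sense of Kimura and O'Sullivan then homologically
trivial endomorphisms are nilpotent. -/
theorem nilHom_of_kimura [HasBinaryBiproducts C] (h : ∀ M : C, KimuraFinite M) : NilHom W :=
  fun M x hx => nil_of_kimura (h M) x hx

/-- (A) and (C) for all motives imply finite-dimensionality. -/
theorem kimura_of_murreAC [HasBinaryBiproducts C] [IsIdempotentComplete C]
    (h : ∀ M : C, MurreA W M ∧ MurreC W M) (M : C) : KimuraFinite M := by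
  have hB : ∀ (M : C) (D : CK W M), D.MurreB := fun M D => murreB_of_murreC (fun M => (h M).2) D
  have hph : NoPhantom W := fun N hN =>
    (IsZero.iff_id_eq_zero N).2 (id_eq_zero_of_murreB hB N hN)
  exact hph.kimura (h M).1.some

/-- nilpotence and (A) imply finite-dimensionality -/
theorem kimura_of_nilHom [HasBinaryBiproducts C] [IsIdempotentComplete C]
    (hA : ∀ M : C, MurreA W M) (hN : NilHom W) (M : C) : KimuraFinite M :=
  (noPhantom_of_nilHom hN).kimura (hA M).some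

end Pool.Agent.Helper15.ABC
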