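import Pool.Agent.Helper15.ABC.PL
import Pool.Agent.Helper15.Murre.KO
import Pool.Agent.Helper58.MAD.Defs

/-!
# The nilpotence theorem of Kimura

If `Λ^{n+1} M = 0` or `Sym^{n+1} M = 0` and `f` is a homologically trivial endomorphism of `M`
then `f^n = 0`.
-/

open CategoryTheory MonoidalCategory Limits TensorProduct
open Pool.Agent.Helper15.Murre Pool.Agent.Helper58.MAD

universe w v u

namespace Pool.Agent.Helper15.ABC

section defs

variable {C : Type u} [Category.{v} C] [MonoidalCategory C]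

/-- the endomorphism `f ⊗ ⋯ ⊗ f` of `M^{⊗n}` -/
def fpow {M : C} (f : M ⟶ M) : (n : ℕ) → (tpow M n ⟶ tpow M n)
  | 0 => 𝟙 _
  | n + 1 => fpow f n ⊗ₘ f

variable [RigidCategory C]

/-- the dual of `M^{⊗n}` -/
def tdual (M : C) : ℕ → C
  | 0 => 𝟙_ C
  | n + 1 => Mᘁ ⊗ tdual M n

/-- the duality of `M^{⊗n}` -/
@[instance_reducible] def tpair (M : C) : (n : ℕ) → ExactPairing (tpow M n) (tdual M n)
  | 0 => exactPairingUnit
  | n + 1 => @ExactPairing.tensor C _ _ (tpow M n) M (tdual M n) (Mᘁ) (tpair M n) _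

end defs

section asym

variable {C : Type u} [Category.{v} C] [Preadditive C] [Linear ℚ C] [MonoidalCategory C]
  [SymmetricCategory C]

lemma sw_fpow {X M : C} (F : X ⟶ X) (f : M ⟶ M) :
    sw X M ≫ ((F ⊗ₘ f) ⊗ₘ f) = ((F ⊗ₘ f) ⊗ₘ f) ≫ sw X M := by
  unfold sw
  simp only [Category.assoc]
  rw [← associator_inv_naturality, associator_naturality_assoc]
  simp only [← id_tensorHom, tensorHom_comp_tensorHom_assoc, Category.comp_id, Category.id_comp,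
    BraidedCategory.braiding_naturality]

lemma asym_fpow (ε : ℚ) {M : C} (f : M ⟶ M) : ∀ n : ℕ,
    asym ε M n ≫ fpow f n = fpow f n ≫ asym ε M n
  | 0 => rfl
  | 1 => (Category.id_comp _).trans (Category.comp_id _).symm
  | n + 2 => by
    have ih := asym_fpow ε f (n + 1)
    have h1 : asym ε M (n + 1) ▷ M ≫ fpow f (n + 2) = fpow f (n + 2) ≫ asym ε M (n + 1) ▷ M := by
      change asym ε M (n + 1) ▷ M ≫ (fpow f (n + 1) ⊗ₘ f) = (fpow f (n + 1) ⊗ₘ f) ≫ _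
      rw [← tensorHom_id]
      simp only [tensorHom_comp_tensorHom, Category.comp_id, Category.id_comp, ih]
    have h2 : sw (tpow M n) M ≫ fpow f (n + 2) = fpow f (n + 2) ≫ sw (tpow M n) M :=
      sw_fpow (fpow f n) f
    have h3 : asym ε M (n + 2) = ((n : ℚ) + 2)⁻¹ • (asym ε M (n + 1) ▷ M -
      (((n : ℚ) + 1) * ε) • ((asym ε M (n + 1) ▷ M) ≫ sw (tpow M n) M ≫
        (asym ε M (n + 1) ▷ M))) := rfl
    rw [h3, Linear.smul_comp, Linear.comp_smul, Preadditive.sub_comp, Preadditive.comp_sub,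
      Linear.smul_comp, Linear.comp_smul, h1]
    simp only [Category.assoc]
    rw [h1, reassoc_of% h2, reassoc_of% h1]

end asym

section main

variable {C : Type u} [Category.{v} C] [Preadditive C] [Linear ℚ C]
  [MonoidalCategory C] [SymmetricCategory C] [MonoidalPreadditive C] [MonoidalLinear ℚ C]
  [RigidCategory C] {F : Type w} [Field F] {W : MotivicHomology C F}

lemma pl_sub {X X' Z Z' : C} [ExactPairing X X'] (u v : X ⊗ Z ⟶ X ⊗ Z') :
    pl X X' (u - v) = pl X X' u - pl X X' v := by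
  unfold pl
  have h1 : X' ◁ (u - v) = X' ◁ u - X' ◁ v := by
    have h2 : X' ◁ ((u - v) + v) = X' ◁ (u - v) + X' ◁ v := MonoidalPreadditive.whiskerLeft_add ..
    rw [sub_add_cancel] at h2
    rw [h2, add_sub_cancel_right]
  rw [h1]
  simp only [Preadditive.sub_comp, Preadditive.comp_sub]

lemma pl_smul {X X' Z Z' : C} [ExactPairing X X'] (q : ℚ) (u : X ⊗ Z ⟶ X ⊗ Z') :
    pl X X' (q • u) = q • pl X X' u := by
  unfold pl
  rw [MonoidalLinear.whiskerLeft_smul]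
  simp only [Linear.smul_comp, Linear.comp_smul]

lemma pl_zero {X X' Z Z' : C} [ExactPairing X X'] :
    pl X X' (0 : X ⊗ Z ⟶ X ⊗ Z') = 0 := by
  unfold pl
  simp

/-- the partial traces of the (anti)symmetrizer composed with `f ⊗ ⋯ ⊗ f ⊗ g` -/
noncomputable def ptf (ε : ℚ) {M : C} (f g : M ⟶ M) (n : ℕ) : M ⟶ M :=
  @pl C _ _ _ (tpow M n) (tdual M n) (tpair M n) M M (asym ε M (n + 1) ≫ (fpow f n ⊗ₘ g))

lemma unit_eq_zero (s : 𝟙_ C ⟶ 𝟙_ C) (hs : W.H.map s = 0) : s = 0 := by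
  have h2 := W.endTate_eq_zero 0 (W.tateZero.hom ≫ s ≫ W.tateZero.inv) (by
    rw [Functor.map_comp, Functor.map_comp, hs, zero_comp, comp_zero])
  have h3 := congrArg (fun t => W.tateZero.inv ≫ t ≫ W.tateZero.hom) h2
  simpa using h3

lemma ptf_succ {ε : ℚ} (hε : ε * ε = 1) {M : C} (f g : M ⟶ M) (hf : W.H.map f = 0) (n : ℕ) :
    ((n : ℚ) + 2) • ptf ε f g (n + 1) = -(((n : ℚ) + 1) * ε) • (ptf ε f f n ≫ g) := by
  let _ := tpair M n
  let _ := tpair M (n + 1)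
  set a := asym ε M (n + 1) with ha
  have hF : W.H.map (fpow f (n + 1)) = 0 := W.H_tensor_zero' (fpow f n) f hf
  have h1 : ((n : ℚ) + 2) • ptf ε f g (n + 1) =
      pl (tpow M (n + 1)) (tdual M (n + 1)) ((a ▷ M) ≫ (fpow f (n + 1) ⊗ₘ g)) -
        (((n : ℚ) + 1) * ε) • pl (tpow M (n + 1)) (tdual M (n + 1))
          ((a ▷ M) ≫ (sw (tpow M n) M ≫ (a ▷ M) ≫ (fpow f (n + 1) ⊗ₘ g))) := by
    unfold ptf
    rw [← pl_smul, ← Linear.smul_comp, asym_succ, Preadditive.sub_comp, pl_sub, Linear.smul_comp,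
      pl_smul]
    simp only [Category.assoc]
    rfl
  have h2 : (a ▷ M) ≫ (fpow f (n + 1) ⊗ₘ g) =
      ((a ≫ fpow f (n + 1)) ▷ M) ≫ (tpow M (n + 1) ◁ g) := by
    rw [MonoidalCategory.tensorHom_def, comp_whiskerRight, Category.assoc]
  have h3 : pl (tpow M (n + 1)) (tdual M (n + 1)) ((a ▷ M) ≫ (fpow f (n + 1) ⊗ₘ g)) = 0 := by
    rw [h2, pl_right, pl_scalar]
    have h4 : (η_ (tpow M (n + 1)) (tdual M (n + 1)) ≫
        (β_ (tpow M (n + 1)) (tdual M (n + 1))).hom) ≫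
        tdual M (n + 1) ◁ (a ≫ fpow f (n + 1)) ≫ ε_ (tpow M (n + 1)) (tdual M (n + 1)) = 0 := by
      apply unit_eq_zero (W := W)
      have h5 : W.H.map (tdual M (n + 1) ◁ (a ≫ fpow f (n + 1))) = 0 := by
        rw [← id_tensorHom]
        apply W.H_tensor_zero'
        rw [Functor.map_comp, hF, comp_zero]
      rw [Functor.map_comp, Functor.map_comp _ (tdual M (n + 1) ◁ (a ≫ fpow f (n + 1))), h5,
        zero_comp, comp_zero]
    rw [h4]
    simp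
  have h6 : pl (tpow M (n + 1)) (tdual M (n + 1))
      ((a ▷ M) ≫ (sw (tpow M n) M ≫ (a ▷ M) ≫ (fpow f (n + 1) ⊗ₘ g))) = ptf ε f f n ≫ g := by
    rw [pl_cyc]
    have h7 : (sw (tpow M n) M ≫ (a ▷ M) ≫ (fpow f (n + 1) ⊗ₘ g)) ≫ (a ▷ M) =
        (sw (tpow M n) M ≫ ((a ≫ fpow f (n + 1)) ▷ M)) ≫ (tpow M (n + 1) ◁ g) := by
      rw [h2]
      simp only [Category.assoc]
      rw [whisker_exchange, ← comp_whiskerRight_assoc, Category.assoc,
        ← asym_fpow, ← Category.assoc a a, (asym_props hε M (n + 1)).1]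
    rw [h7, pl_right]
    congr 1
    exact pl_sw (a ≫ fpow f (n + 1))
  rw [h1, h3, h6, zero_sub, neg_smul]

lemma ptf_eq {ε : ℚ} (hε : ε * ε = 1) {M : C} (f : M ⟶ M) (hf : W.H.map f = 0) : ∀ (n : ℕ),
    ∃ c : ℚ, c ≠ 0 ∧ ∀ g : M ⟶ M, ptf ε f g n = c • (pw f n ≫ g)
  | 0 => by
    refine ⟨1, one_ne_zero, fun g => ?_⟩
    rw [one_smul]
    let _ := tpair M 0
    have h1 : asym ε M (0 + 1) ≫ (fpow f 0 ⊗ₘ g) = 𝟙 (tpow M 0 ⊗ M) ≫ (tpow M 0 ◁ g) := by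
      change 𝟙 (tpow M 0 ⊗ M) ≫ (𝟙 (tpow M 0) ⊗ₘ g) = _
      rw [id_tensorHom]
    unfold ptf
    rw [h1, pl_right]
    congr 1
    unfold pl
    change (λ_ M).inv ≫ ((ρ_ (𝟙_ C)).inv ≫ (β_ (𝟙_ C) (𝟙_ C)).hom) ▷ M ≫
      (α_ (𝟙_ C) (𝟙_ C) M).hom ≫ (𝟙_ C) ◁ 𝟙 ((𝟙_ C) ⊗ M) ≫ (α_ (𝟙_ C) (𝟙_ C) M).inv ≫
      (ρ_ (𝟙_ C)).hom ▷ M ≫ (λ_ M).hom = 𝟙 M
    rw [braiding_tensorUnit_left]
    monoidal
  | n + 1 => by
    obtain ⟨c, hc, h⟩ := ptf_eq hε f hf n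
    refine ⟨((n : ℚ) + 2)⁻¹ * (-(((n : ℚ) + 1) * ε)) * c, ?_, fun g => ?_⟩
    · have h1 : ε ≠ 0 := by rintro rfl; simp at hε
      have h2 : ((n : ℚ) + 2) ≠ 0 := by positivity
      have h3 : ((n : ℚ) + 1) ≠ 0 := by positivity
      simp [h1, h2, h3, hc]
    · have h1 := ptf_succ (W := W) hε f g hf n
      have h2 : ((n : ℚ) + 2) ≠ 0 := by positivity
      have h3 := congrArg (((n : ℚ) + 2)⁻¹ • ·) h1
      simp only [smul_smul, inv_mul_cancel₀ h2, one_smul] at h3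
      rw [h3, h f]
      change _ = _ • ((pw f n ≫ f) ≫ g)
      rw [Linear.smul_comp, smul_smul]

/-- **Kimura.** -/
theorem pw_eq_zero_of_asym {ε : ℚ} (hε : ε * ε = 1) {M : C} (n : ℕ)
    (h : asym ε M (n + 1) = 0) (f : M ⟶ M) (hf : W.H.map f = 0) : pw f n = 0 := by
  obtain ⟨c, hc, h1⟩ := ptf_eq (W := W) hε f hf n
  have h2 := h1 (𝟙 M)
  rw [Category.comp_id] at h2
  have h3 : ptf ε f (𝟙 M) n = 0 := by
    unfold ptf
    rw [h, zero_comp]
    exact @pl_zero C _ _ _ _ _ _ _ _ _ _ _ _ (tpair M n)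
  rw [h3] at h2
  exact (smul_eq_zero.1 h2.symm).resolve_left hc

end main

end Pool.Agent.Helper15.ABC
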