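import Pool.Agent.Helper15.ABC.Finite
import Pool.Agent.Helper15.Murre.Twist

/-!
# (B), (C) and finite-dimensionality for a class of varieties closed under products
-/

open CategoryTheory MonoidalCategory Limits TensorProduct
open Pool.Agent.Helper15.Murre Pool.Agent.Helper58.MAD

universe t w v u

set_option linter.unusedSectionVars false

namespace Pool.Agent.Helper15.ABC

variable {C : Type u} [Category.{v} C] [Preadditive C] [Linear ℚ C]
  [MonoidalCategory C] [SymmetricCategory C] [MonoidalPreadditive C] [MonoidalLinear ℚ C]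
  [RigidCategory C] {F : Type w} [Field F] {W : MotivicHomology C F}

/-- (C) for `M(n)` from (C) for `M` -/
theorem murreC_twist {M : C} (h : MurreC W M) (n : ℤ) : MurreC W (M ⊗ W.T n) := by
  rw [MurreC_iff] at h ⊢
  intro D D' l i j hij α
  apply shiftCH_injective
  have key : ∀ (E : CK W (M ⊗ W.T n)) (a : ℤ) (γ : W.CH l (M ⊗ W.T n)),
      shiftCH W l n (γ ≫ E.p a) = shiftCH W l n γ ≫
        ((E.twist (-n)).ofIso (untwist W M n)).p (a + 2 * (-n)) := by
    intro E a γ
    change _ = _ ≫ (untwist W M n).inv ≫ (E.twist (-n)).p (a + 2 * (-n)) ≫ (untwist W M n).hom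
    rw [CK.twist_p, add_sub_cancel_right]
    unfold shiftCH
    simp only [comp_whiskerRight, Category.assoc, Iso.hom_inv_id_assoc]
  rw [← Category.assoc, key, key, Category.assoc]
  exact h _ _ (l - n) _ _ (by omega) _

/-- (B) for every Chow-Künneth decomposition passes to isomorphic objects -/
theorem murreB_ofIso {M N : C} (e : M ≅ N) (h : ∀ D : CK W M, D.MurreB) (E : CK W N) :
    E.MurreB := by
  have h1 := h (E.ofIso e.symm)
  rw [CK.MurreB_iff] at h1 ⊢
  intro l i hi α
  have h2 := h1 l i hi (α ≫ e.inv)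
  change (α ≫ e.inv) ≫ (e.hom ≫ E.p i ≫ e.inv) = 0 at h2
  have h3 := congrArg (· ≫ e.hom) h2
  simpa using h3

/-- (B) for every Chow-Künneth decomposition passes to twists -/
theorem murreB_twist {M : C} (h : ∀ D : CK W M, D.MurreB) (n : ℤ) (E : CK W (M ⊗ W.T n)) :
    E.MurreB := by
  have h1 := CK.twist_murreB (h ((E.twist (-n)).ofIso (untwist W M n))) n
  have h2 := h ((E.twist (-n)).ofIso (untwist W M n))
  rw [CK.MurreB_iff] at h2 ⊢
  intro l i hi γ
  apply shiftCH_injective
  have key : shiftCH W l n (γ ≫ E.p i) = shiftCH W l n γ ≫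
        ((E.twist (-n)).ofIso (untwist W M n)).p (i + 2 * (-n)) := by
    change _ = _ ≫ (untwist W M n).inv ≫ (E.twist (-n)).p (i + 2 * (-n)) ≫ (untwist W M n).hom
    rw [CK.twist_p, add_sub_cancel_right]
    unfold shiftCH
    simp only [comp_whiskerRight, Category.assoc, Iso.hom_inv_id_assoc]
  rw [key]
  exact h2 _ _ (by omega) _

/-- (B) for every Chow-Künneth decomposition of `M ⊗ Mᘁ` implies (C) for `M` -/
theorem murreC_of_murreB_end {M : C} (hB : ∀ D : CK W (M ⊗ Mᘁ), D.MurreB) : MurreC W M := by
  rw [MurreC_iff]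
  intro D D' l i j hij α
  have key : D.p i ≫ D'.p j = 0 := by
    apply name_injective (W := W)
    have h1 := hB (D'.tensor D.dual)
    rw [CK.MurreB_iff] at h1
    have h1' := h1 0 (j - i) (by omega) (name W (D.p i ≫ D'.p j))
    have h2 : name W (D.p i ≫ D'.p j) ≫ (D'.tensor D.dual).p (j - i)
        = name W (D.p i ≫ D'.p j) := by
      change _ ≫ (∑ a ∈ D'.s, D'.p a ⊗ₘ (D.p (-(j - i - a)))ᘁ) = _
      rw [Preadditive.comp_sum]
      by_cases hj : j ∈ D'.s
      · rw [Finset.sum_eq_single_of_mem j hj]
        · rw [name_comp]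
          congr 1
          have : -(j - i - j) = i := by ring
          rw [this]
          simp only [Category.assoc, D'.idem]
          rw [← Category.assoc, D.idem]
        · intro a _ ha
          rw [name_comp]
          simp only [Category.assoc]
          rw [D'.orth j a (Ne.symm ha)]
          simp [name]
      · rw [D'.p_eq_zero hj]
        simp [name]
    rw [← h2, h1']
  rw [key, comp_zero]

/-- an object `N` without homology such that (B) holds for every Chow-Künneth decomposition of
`N ⊗ Nᘁ` vanishes -/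
theorem id_eq_zero_of_murreB_end {N : C} (hB : ∀ D : CK W (N ⊗ Nᘁ), D.MurreB)
    (hN : Subsingleton (W.H.obj N)) : 𝟙 N = 0 := by
  apply name_injective (W := W)
  have h1 : Subsingleton (W.H.obj (N ⊗ Nᘁ)) := by
    apply W.subsingleton_of_id
    have := W.H_tensor_zero (𝟙 N) (𝟙 (Nᘁ)) (W.map_zero_of_subsingleton _ hN)
    simpa using this
  have h2 := hB (CK.single (W := W) (N ⊗ Nᘁ) (-1) (fun x => by
    have : x = 0 := Subsingleton.elim _ _
    rw [this]
    exact Submodule.zero_mem _))
  rw [CK.MurreB_iff] at h2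
  have h3 := h2 0 (-1) (by omega) (name W (𝟙 N))
  rw [CK.single_p, Category.comp_id] at h3
  exact h3

/-- if `M` is finite-dimensional then (B) for one Chow-Künneth decomposition of `M` implies (B) for
all of them -/
theorem murreB_all_of_kimura [HasBinaryBiproducts C] {M : C} (h : KimuraFinite M) (D : CK W M)
    (hD : D.MurreB) (E : CK W M) : E.MurreB := by
  rw [CK.MurreB_iff] at hD ⊢
  intro l i hi α
  let c : End M := End.of (E.p i - E.p i ≫ D.p i ≫ E.p i)
  obtain ⟨m, hm⟩ := nil_of_kimura (W := W) h c.asHom (by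
    apply W.hext
    intro j x hx
    change (W.H.map (E.p i - E.p i ≫ D.p i ≫ E.p i)).hom x = 0
    rw [W.map_sub_apply, W.map_comp_apply, W.map_comp_apply, E.homology i j x hx]
    split_ifs with hj
    · rw [D.homology i j x hx, if_pos hj, E.homology i j x hx, if_pos hj, sub_self]
    · rw [map_zero, map_zero, sub_self])
  rw [pw_eq_pow_lift] at hm
  have hm' : c ^ m = 0 := by
    apply End.ext
    exact hm
  let w : End M := ∑ k ∈ Finset.range m, c ^ k
  have hw2 : w * (1 - c) = 1 := by
    have := geom_sum_mul_neg c m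
    rw [hm', sub_zero] at this
    exact this
  have h5 : (1 - c : End M).asHom ≫ w.asHom = 𝟙 M := hw2
  have hEc : E.p i ≫ c.asHom = c.asHom := by
    change E.p i ≫ (E.p i - E.p i ≫ D.p i ≫ E.p i) = _
    rw [Preadditive.comp_sub, E.idem, ← Category.assoc (E.p i) (E.p i), E.idem]
  have h4 : E.p i ≫ (1 - c : End M).asHom = E.p i ≫ D.p i ≫ E.p i := by
    change E.p i ≫ (𝟙 M - c.asHom) = _
    rw [Preadditive.comp_sub, Category.comp_id, hEc]
    change E.p i - (E.p i - E.p i ≫ D.p i ≫ E.p i) = _
    rw [sub_sub_cancel]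
  have h6 : E.p i = E.p i ≫ D.p i ≫ E.p i ≫ w.asHom := by
    have h7 : E.p i = E.p i ≫ ((1 - c : End M).asHom ≫ w.asHom) := by
      rw [h5, Category.comp_id]
    rw [← Category.assoc, h4] at h7
    simpa only [Category.assoc] using h7
  have h8 := hD l i hi (α ≫ E.p i)
  rw [h6, ← Category.assoc, ← Category.assoc, h8, zero_comp]

end Pool.Agent.Helper15.ABC
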