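import Pool.Agent.Helper15.ABC.Package

/-!
# (A), (B), (C) over all fields and over the algebraic closure of the prime field: main theorem
-/

open CategoryTheory MonoidalCategory Limits TensorProduct
open Pool.Agent.Helper15.Murre Pool.Agent.Helper15.MADR
open Pool.Agent.Helper58.MAD Pool.Agent.Helper88.MADR

universe w v u

set_option linter.unusedSectionVars false

namespace Pool.Agent.Helper15.ABC

variable {F : Type w} [Field F]

/-- Murre's conjectures (A), (B), (C) for all motives, homological = numerical equivalence, and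
the filtration on the Chow groups has length at most `r`. -/
def HoldsABC (M : Motives.{w, v, u} F) (r : ℕ∞) : Prop :=
  MurreABC M.W ∧ HomEqNum M.W ∧ Length M.W r

/-- (A) and finite-dimensionality for all motives, and homological = numerical equivalence. -/
def FinDim (M : Motives.{w, v, u} F) : Prop :=
  (∀ N : M.C, MurreA M.W N ∧ KimuraFinite N) ∧ HomEqNum M.W

/-- the motives over an algebraically closed field -/
theorem closed_transfer {M M' : Motives.{w, v, u} F} {Var : Type u} {h : Var → M'.C} {t : ℕ∞}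
    (H : HasModels M M' h t)
    (hgen : ∀ N : M'.C, ∃ (X : Var) (m : ℤ), Nonempty (Retract N (h X ⊗ M'.W.T m)))
    (hA : ∀ N : M.C, MurreA M.W N) (hN : HomNum M.W) (hNil : NilHom M.W) :
    NilHom M'.W ∧ (∀ N : M'.C, MurreA M'.W N) ∧
      ∀ r : ℕ∞, (∀ N : M.C, LengthNil M.W r N) → ∀ P : M'.C, LengthNil M'.W (r + t) P := by
  obtain ⟨Φ, B, hX⟩ := H
  have hR : Reg M.W := hN.reg fun N => signConj_of_murreA (hA N)
  have hNil' : NilHom M'.W := nilHom_of_hNil (fun P => by
    obtain ⟨X, m, ⟨R⟩⟩ := hgen P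
    exact HNil.retract R (HNil.twist (hNil_transfer B hNil hR (hX X).1) m))
  refine ⟨hNil', fun P => murreA_of_kunnethHom hNil' P ?_, fun r hL P => ?_⟩
  · obtain ⟨X, m, ⟨R⟩⟩ := hgen P
    obtain ⟨S⟩ := (hX X).2.2
    exact KunnethHom.retract R (KunnethHom.twist
      (S.toSpecialisation.kunneth (kunnethHom_of_murreA (hA _)) hR) m)
  · obtain ⟨X, m, ⟨R⟩⟩ := hgen P
    exact LengthNil.retract R (LengthNil.twist
      (lengthNil_transfer B hA hNil hR hL (hX X).1) m)

/-- the motives over an arbitrary field -/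
theorem closure_transfer {M M' : Motives.{w, v, u} F} (H : IsClosure M M') (hN : NilHom M'.W)
    (hA : ∀ N : M'.C, MurreA M'.W N) :
    NilHom M.W ∧ (∀ N : M.C, MurreA M.W N) ∧
      ∀ r : ℕ∞, (∀ N : M'.C, LengthNil M'.W r N) → ∀ P : M.C, LengthNil M.W r P := by
  obtain ⟨Φ, ⟨B⟩, hd, -⟩ := H
  have hNil := nilHom_descend B hN
  exact ⟨hNil, fun P => murreA_of_kunnethHom hNil P (KunnethHom.descend B hd (hA _)),
    fun r hL P => lengthNil_descend B (hL _)⟩

/-- Murre's conjectures (A), (B), (C) for all motives, and also (D) if `d` holds; homological =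
numerical equivalence; and the filtration on the Chow groups has length at most `r`. -/
def HoldsWith (d : Prop) (M : Motives.{w, v, u} F) (r : ℕ∞) : Prop :=
  (∀ N : M.C, MurreA M.W N ∧ MurreC M.W N ∧ ∃ D : CK M.W N, D.MurreB ∧ (d → D.MurreD)) ∧
    HomEqNum M.W ∧ Length M.W r

theorem holdsWith_true {M : Motives.{w, v, u} F} {r : ℕ∞} {d : Prop} (hd : d) :
    HoldsWith d M r ↔ Holds M r := by
  unfold HoldsWith Holds Murre
  simp only [hd, true_imp_iff]

theorem holdsWith_false {M : Motives.{w, v, u} F} {r : ℕ∞} {d : Prop} (hd : ¬ d) :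
    HoldsWith d M r ↔ HoldsABC M r := by
  unfold HoldsWith HoldsABC MurreABC
  simp only [hd, false_imp_iff, and_true]

variable (G : Setting.{w, v, u} F)

/-- the transfer from the base to all fields -/
theorem transfer (hA : ∀ N : (G.mot G.base).C, MurreA (G.mot G.base).W N)
    (hN : HomNum (G.mot G.base).W) (hNil : NilHom (G.mot G.base).W) (K : G.Fld) :
    NilHom (G.mot K).W ∧ (∀ N : (G.mot K).C, MurreA (G.mot K).W N) ∧ HomNum (G.mot K).W ∧
      ∀ r : ℕ∞, (∀ N : (G.mot G.base).C, LengthNil (G.mot G.base).W r N) →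
        ∀ P : (G.mot K).C, LengthNil (G.mot K).W (r + G.trdeg K) P := by
  obtain ⟨K', hK', ht, hcl⟩ := G.closure K
  have H := G.models K' hK'
  obtain ⟨h1, h2, h3⟩ := closed_transfer H G.generated hA hN hNil
  have h4 : HomNum (G.mot K').W := homNum_closed H G.generated hN
  obtain ⟨h5, h6, h7⟩ := closure_transfer hcl h1 h2
  rw [ht] at h3
  exact ⟨h5, h6, homNum_closure hcl h4, fun r hr => h7 _ (h3 r hr)⟩

theorem holdsABC_iff (r : ℕ∞) :
    HoldsABC (G.mot G.base) r ↔ ∀ K, HoldsABC (G.mot K) (r + G.trdeg K) := by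
  constructor
  · rintro ⟨hM, hN, hL⟩ K
    obtain ⟨h1, h2, h3, h4⟩ := transfer G (fun N => (hM N).1) hN hM.nilHom K
    obtain ⟨h5, h6⟩ := murreABC_of_lengthNil h2 (h4 r (hM.lengthNil hL))
    exact ⟨h5, h3, h6⟩
  · intro h
    have := h G.base
    rwa [G.trdeg_base, add_zero] at this

theorem finDim_iff : FinDim (G.mot G.base) ↔ ∀ K, FinDim (G.mot K) := by
  constructor
  · rintro ⟨hM, hN⟩ K
    obtain ⟨h1, h2, h3, -⟩ := transfer G (fun N => (hM N).1) hN
      (nilHom_of_kimura fun N => (hM N).2) K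
    exact ⟨fun N => ⟨h2 N, kimura_of_nilHom h2 h1 N⟩, h3⟩
  · intro h
    exact h G.base

theorem frobenius_tfae (hF : Frobenius (G.mot G.base).W) :
    [(∀ M : (G.mot G.base).C, KimuraFinite M) ∧ HomEqNum (G.mot G.base).W,
      HoldsABC (G.mot G.base) ⊤,
      ∀ K, HoldsABC (G.mot K) (G.trdeg K)].TFAE := by
  tfae_have 1 → 3 := by
    rintro ⟨hK, hN⟩ K
    have hNil := nilHom_of_kimura (W := (G.mot G.base).W) hK
    have hA : ∀ M : (G.mot G.base).C, MurreA (G.mot G.base).W M := fun M =>
      murreA_of_kunnethHom hNil M (hF.kunnethHom M)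
    obtain ⟨h1, h2⟩ := murreABC_of_lengthNil hA (r := 0)
      (fun P => lengthNil_of_frobenius hF hA hNil P)
    have h3 := (holdsABC_iff G 0).1 ⟨h1, hN, h2⟩ K
    rwa [zero_add] at h3
  tfae_have 3 → 2 := fun h => ⟨(h G.base).1, (h G.base).2.1,
    fun _ _ _ _ hn => absurd hn (by simp)⟩
  tfae_have 2 → 1 := fun h => ⟨h.1.kimura, h.2.1⟩
  tfae_finish

theorem holdsWith_iff (d : Prop) (r : ℕ∞) :
    HoldsWith d (G.mot G.base) r ↔ ∀ K, HoldsWith d (G.mot K) (r + G.trdeg K) := by
  by_cases hd : d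
  · simp only [holdsWith_true hd]
    exact G.holds_iff r
  · simp only [holdsWith_false hd]
    exact holdsABC_iff G r

theorem frobenius_tfae_true (hF : Frobenius (G.mot G.base).W) :
    [RatNum (G.mot G.base).W, HoldsWith True (G.mot G.base) ⊤,
      ∀ K, HoldsWith True (G.mot K) (G.trdeg K)].TFAE := by
  simp only [holdsWith_true trivial]
  tfae_have 1 → 3 := by
    intro h K
    have h1 := (G.holds_iff 0).1 ⟨h.murreAll hF.kunnethHom, h.homNum, h.length⟩ K
    rwa [zero_add] at h1
  tfae_have 3 → 2 := fun h => ⟨(h G.base).1, (h G.base).2.1, fun _ _ _ _ hn => absurd hn (by simp)⟩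
  tfae_have 2 → 1 := fun h => ratNum_of hF h.1 h.2.1
  tfae_finish

theorem frobenius_tfae_false (hF : Frobenius (G.mot G.base).W) :
    [(∀ M : (G.mot G.base).C, KimuraFinite M) ∧ HomEqNum (G.mot G.base).W,
      HoldsWith False (G.mot G.base) ⊤,
      ∀ K, HoldsWith False (G.mot K) (G.trdeg K)].TFAE := by
  simp only [holdsWith_false not_false]
  exact frobenius_tfae G hF

end Pool.Agent.Helper15.ABC
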