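import Mathlib

/-!
# Partial traces over an object with a dual, in a symmetric monoidal category
-/

open CategoryTheory MonoidalCategory Limits

universe v u

namespace Pool.Agent.Helper15.ABC

variable {C : Type u} [Category.{v} C] [MonoidalCategory C] [SymmetricCategory C]

lemma slideA {M M' Y : C} (c : 𝟙_ C ⟶ M' ⊗ M) :
    (ρ_ Y).inv ≫ (Y ◁ c) ≫ (α_ Y M' M).inv ≫ ((β_ Y M').hom ▷ M) ≫ (α_ M' Y M).hom =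
      (λ_ Y).inv ≫ (c ▷ Y) ≫ (α_ M' M Y).hom ≫ (M' ◁ (β_ M Y).hom) := by
  have h1 := BraidedCategory.hexagon_forward Y M' M
  have h2 : (β_ Y M').hom ▷ M ≫ (α_ M' Y M).hom =
      (α_ Y M' M).hom ≫ (β_ Y (M' ⊗ M)).hom ≫ (α_ M' M Y).hom ≫ (M' ◁ (β_ M Y).hom) := by
    have h3 : (M' ◁ (β_ Y M).hom) ≫ (M' ◁ (β_ M Y).hom) = 𝟙 _ := by
      rw [← MonoidalCategory.whiskerLeft_comp, SymmetricCategory.symmetry,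
        MonoidalCategory.whiskerLeft_id]
    rw [reassoc_of% h1, h3, Category.comp_id]
  rw [h2, Iso.inv_hom_id_assoc, BraidedCategory.braiding_naturality_right_assoc,
    braiding_tensorUnit_right]
  simp

lemma slideB {M Y Y' : C} (a : 𝟙_ C ⟶ Y ⊗ Y') :
    (ρ_ M).inv ≫ (M ◁ a) ≫ (α_ M Y Y').inv ≫ ((β_ M Y).hom ▷ Y') ≫ (α_ Y M Y').hom ≫
      (Y ◁ (β_ M Y').hom) = (λ_ M).inv ≫ (a ▷ M) ≫ (α_ Y Y' M).hom := by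
  have h1 := BraidedCategory.hexagon_forward M Y Y'
  rw [← h1, Iso.inv_hom_id_assoc, BraidedCategory.braiding_naturality_right_assoc,
    braiding_tensorUnit_right]
  simp

lemma braid_nested {Y Y' M M' : C} (a : 𝟙_ C ⟶ Y ⊗ Y') (b : 𝟙_ C ⟶ M ⊗ M') :
    (a ⊗≫ (Y ◁ b) ▷ Y' ⊗≫ 𝟙 ((Y ⊗ M) ⊗ (M' ⊗ Y'))) ≫ (β_ (Y ⊗ M) (M' ⊗ Y')).hom =
      (b ≫ (β_ M M').hom) ⊗≫ (M' ◁ (a ≫ (β_ Y Y').hom)) ▷ M ⊗≫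
        𝟙 ((M' ⊗ Y') ⊗ (Y ⊗ M)) := by
  calc _ = 𝟙 _ ⊗≫ a ⊗≫ ((ρ_ Y).inv ≫ (Y ◁ (b ≫ (β_ M M').hom)) ≫ (α_ Y M' M).inv ≫
        ((β_ Y M').hom ▷ M) ≫ (α_ M' Y M).hom) ▷ Y' ⊗≫ M' ◁ (Y ◁ (β_ M Y').hom) ⊗≫
        M' ◁ (β_ Y Y').hom ▷ M ⊗≫ 𝟙 _ := by
        simp only [BraidedCategory.braiding_tensor_right_hom,
          BraidedCategory.braiding_tensor_left_hom]
        monoidal
    _ = 𝟙 _ ⊗≫ (b ≫ (β_ M M').hom) ⊗≫ M' ◁ ((ρ_ M).inv ≫ (M ◁ a) ≫ (α_ M Y Y').inv ≫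
        ((β_ M Y).hom ▷ Y') ≫ (α_ Y M Y').hom ≫ (Y ◁ (β_ M Y').hom)) ⊗≫
        M' ◁ (β_ Y Y').hom ▷ M ⊗≫ 𝟙 _ := by
        rw [slideA]
        calc _ = 𝟙 _ ⊗≫ ((𝟙_ C) ◁ a ≫ (b ≫ (β_ M M').hom) ▷ (Y ⊗ Y')) ⊗≫
              M' ◁ ((β_ M Y).hom ▷ Y') ⊗≫ M' ◁ (Y ◁ (β_ M Y').hom) ⊗≫
              M' ◁ (β_ Y Y').hom ▷ M ⊗≫ 𝟙 _ := by monoidal
          _ = 𝟙 _ ⊗≫ ((b ≫ (β_ M M').hom) ▷ (𝟙_ C) ≫ (M' ⊗ M) ◁ a) ⊗≫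
              M' ◁ ((β_ M Y).hom ▷ Y') ⊗≫ M' ◁ (Y ◁ (β_ M Y').hom) ⊗≫
              M' ◁ (β_ Y Y').hom ▷ M ⊗≫ 𝟙 _ := by rw [whisker_exchange]
          _ = _ := by monoidal
    _ = _ := by
        rw [slideB]
        monoidal

/-- the partial trace over `X` of `u : X ⊗ Z ⟶ X ⊗ Z'` -/
noncomputable def pl (X X' : C) [ExactPairing X X'] {Z Z' : C} (u : X ⊗ Z ⟶ X ⊗ Z') : Z ⟶ Z' :=
  (λ_ Z).inv ≫ (η_ X X' ≫ (β_ X X').hom) ▷ Z ≫ (α_ X' X Z).hom ≫ X' ◁ u ≫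
    (α_ X' X Z').inv ≫ ε_ X X' ▷ Z' ≫ (λ_ Z').hom

lemma pl_left (X X' : C) [ExactPairing X X'] {Z Z' Z'' : C} (g : Z ⟶ Z') (u : X ⊗ Z' ⟶ X ⊗ Z'') :
    pl X X' ((X ◁ g) ≫ u) = g ≫ pl X X' u := by
  unfold pl
  rw [MonoidalCategory.whiskerLeft_comp]
  simp only [Category.assoc]
  rw [← associator_naturality_right_assoc, ← whisker_exchange_assoc,
    leftUnitor_inv_naturality_assoc]

lemma pl_right (X X' : C) [ExactPairing X X'] {Z Z' Z'' : C} (u : X ⊗ Z ⟶ X ⊗ Z') (g : Z' ⟶ Z'') :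
    pl X X' (u ≫ (X ◁ g)) = pl X X' u ≫ g := by
  unfold pl
  rw [MonoidalCategory.whiskerLeft_comp]
  simp only [Category.assoc]
  rw [associator_inv_naturality_right_assoc, whisker_exchange_assoc,
    leftUnitor_naturality]

lemma pl_scalar (X X' : C) [ExactPairing X X'] {Z : C} (h : X ⟶ X) :
    pl X X' (h ▷ Z) = (λ_ Z).inv ≫ (((η_ X X' ≫ (β_ X X').hom) ≫ X' ◁ h ≫ ε_ X X') ▷ Z) ≫
      (λ_ Z).hom := by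
  unfold pl
  monoidal

lemma pl_whisker (Y Y' : C) [ExactPairing Y Y'] {Z Z' : C} (u : Y ⊗ Z ⟶ Y ⊗ Z') (V : C) :
    pl Y Y' ((α_ Y Z V).inv ≫ (u ▷ V) ≫ (α_ Y Z' V).hom) = (pl Y Y' u) ▷ V := by
  unfold pl
  monoidal

lemma pl_cyc (X X' : C) [ExactPairing X X'] {Z Z' : C} (k : X ⟶ X) (u : X ⊗ Z ⟶ X ⊗ Z') :
    pl X X' ((k ▷ Z) ≫ u) = pl X X' (u ≫ (k ▷ Z')) := by
  obtain ⟨k', hk1, h4⟩ : ∃ k' : X' ⟶ X', η_ X X' ≫ X ◁ k' = η_ X X' ≫ k ▷ X' ∧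
      k' ▷ X ≫ ε_ X X' = X' ◁ k ≫ ε_ X X' := by
    let _ : HasRightDual X := ⟨X'⟩
    exact ⟨(kᘁ : X' ⟶ X'), coevaluation_comp_rightAdjointMate k,
      rightAdjointMate_comp_evaluation k⟩
  have h1 : (η_ X X' ≫ (β_ X X').hom) ≫ (X' ◁ k) =
      (η_ X X' ≫ (β_ X X').hom) ≫ (k' ▷ X) := by
    rw [Category.assoc, Category.assoc, ← BraidedCategory.braiding_naturality_left,
      ← BraidedCategory.braiding_naturality_right, ← Category.assoc, ← Category.assoc, hk1]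
  have h5 : pl X X' ((k ▷ Z) ≫ u) = (λ_ Z).inv ≫ ((η_ X X' ≫ (β_ X X').hom) ≫ (X' ◁ k)) ▷ Z ≫
      (α_ X' X Z).hom ≫ X' ◁ u ≫ (α_ X' X Z').inv ≫ ε_ X X' ▷ Z' ≫ (λ_ Z').hom := by
    unfold pl
    monoidal
  have h6 : pl X X' (u ≫ (k ▷ Z')) = (λ_ Z).inv ≫ (η_ X X' ≫ (β_ X X').hom) ▷ Z ≫
      (α_ X' X Z).hom ≫ X' ◁ u ≫ (α_ X' X Z').inv ≫ (X' ◁ k ≫ ε_ X X') ▷ Z' ≫ (λ_ Z').hom := by
    unfold pl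
    monoidal
  rw [h5, h6, h1, ← h4]
  calc _ = 𝟙 _ ⊗≫ (η_ X X' ≫ (β_ X X').hom) ▷ Z ⊗≫ (k' ▷ (X ⊗ Z) ≫ X' ◁ u) ⊗≫
        ε_ X X' ▷ Z' ⊗≫ 𝟙 _ := by monoidal
    _ = 𝟙 _ ⊗≫ (η_ X X' ≫ (β_ X X').hom) ▷ Z ⊗≫ (X' ◁ u ≫ k' ▷ (X ⊗ Z')) ⊗≫
        ε_ X X' ▷ Z' ⊗≫ 𝟙 _ := by rw [whisker_exchange]
    _ = _ := by monoidal

lemma pl_tensor (Y Y' M M' : C) [ExactPairing Y Y'] [ExactPairing M M'] {Z Z' : C}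
    (u : (Y ⊗ M) ⊗ Z ⟶ (Y ⊗ M) ⊗ Z') :
    pl (Y ⊗ M) (M' ⊗ Y') u =
      pl M M' (pl Y Y' ((α_ Y M Z).inv ≫ u ≫ (α_ Y M Z').hom)) := by
  have h1 : η_ (Y ⊗ M) (M' ⊗ Y') ≫ (β_ (Y ⊗ M) (M' ⊗ Y')).hom =
      (η_ M M' ≫ (β_ M M').hom) ⊗≫ (M' ◁ (η_ Y Y' ≫ (β_ Y Y').hom)) ▷ M ⊗≫
        𝟙 ((M' ⊗ Y') ⊗ (Y ⊗ M)) := by
    rw [ExactPairing.tensor_coevaluation]
    exact braid_nested _ _
  unfold pl
  rw [h1, ExactPairing.tensor_evaluation]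
  monoidal

lemma pl_braid (M M' : C) [ExactPairing M M'] : pl M M' (β_ M M).hom = 𝟙 M := by
  unfold pl
  have h1 := BraidedCategory.hexagon_forward M M' M
  rw [comp_whiskerRight, Category.assoc, ← reassoc_of% h1, Iso.hom_inv_id_assoc,
    ← BraidedCategory.braiding_naturality_right_assoc,
    reassoc_of% (ExactPairing.evaluation_coevaluation M M'), braiding_tensorUnit_right]
  simp

lemma pl_sw {Y Y' M M' : C} [ExactPairing Y Y'] [ExactPairing M M'] (w : Y ⊗ M ⟶ Y ⊗ M) :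
    pl (Y ⊗ M) (M' ⊗ Y') (((α_ Y M M).hom ≫ (Y ◁ (β_ M M).hom) ≫ (α_ Y M M).inv) ≫ (w ▷ M)) =
      pl Y Y' w := by
  rw [pl_tensor]
  have h1 : (α_ Y M M).inv ≫ (((α_ Y M M).hom ≫ (Y ◁ (β_ M M).hom) ≫ (α_ Y M M).inv) ≫ (w ▷ M)) ≫
      (α_ Y M M).hom = (Y ◁ (β_ M M).hom) ≫ ((α_ Y M M).inv ≫ (w ▷ M) ≫ (α_ Y M M).hom) := by
    simp
  rw [h1, pl_left, pl_whisker, ← BraidedCategory.braiding_naturality_right, pl_left, pl_braid,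
    Category.comp_id]

end Pool.Agent.Helper15.ABC
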