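import Pool.Agent.Helper15.ABC.ClassNil

/-!
# Murre's conjectures for a class of varieties closed under products
-/

open CategoryTheory MonoidalCategory Limits
open Pool.Agent.Helper15.Murre Pool.Agent.Helper15.ABC
open Pool.Agent.Helper58.MAD Pool.Agent.Helper88.MADR

universe t w v u

namespace Pool.Agent.Helper15.ABC.ProductClosedArchive

/-- Let `h X`, `X : ι`, be the motives of a class of smooth projective varieties which is closed
under products (for example all powers of one variety).

The following are equivalent:
1. (A) and (C) for all `X`;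
2. (A), and (B) for every Chow-Kunneth decomposition, for all `X`;
3. every `h X` is finite-dimensional in the sense of Kimura and O'Sullivan and has a Chow-Kunneth
   decomposition with (B);
4. for all `X` the Kunneth projectors are algebraic and every endomorphism of `h X` which is zero on
   `H_j(X)` for all `j ≥ 2l` is locally nilpotent on `CH_l(X)`;
5. (A) for all `X`, and `CH_0(N) = 0` for every direct summand `N` of a twist `h X (m)` with
   `H_*(N) = H_w(N)`, `w < 0`;
6. (A), (B) for every Chow-Kunneth decomposition, (C) and finite-dimensionality for every direct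
   summand of a twist `h X (m)`.

The following are equivalent as well:
1. (C), and (D) for some Chow-Kunneth decomposition, for all `X`;
2. for all `X` the Kunneth projectors are algebraic and every endomorphism of `h X` which is zero on
   `H_j(X)` for all `j > 2l` is locally nilpotent on `CH_l(X)_hom`;
3. (A) for all `X`, and `CH_0(N)_hom = 0` for every direct summand `N` of a twist `h X (m)` with
   `H_*(N) = H_w(N)`, `w ≤ 0`;
4. (A), (B) and (D) for every Chow-Kunneth decomposition, and (C) for every direct summand of a
   twist `h X (m)`. -/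
theorem result {C : Type u} [Category.{v} C] [Preadditive C] [Linear ℚ C] [MonoidalCategory C]
    [SymmetricCategory C] [MonoidalPreadditive C] [MonoidalLinear ℚ C] [RigidCategory C]
    [HasBinaryBiproducts C] [IsIdempotentComplete C]
    {F : Type w} [Field F] (W : MotivicHomology C F) {ι : Type t} (h : ι → C)
    (H : ProductClass W h) :
    List.TFAE [
      ∀ X : ι, MurreA W (h X) ∧ MurreC W (h X),
      ∀ X : ι, MurreA W (h X) ∧ ∀ D : CK W (h X), D.MurreB,
      ∀ X : ι, KimuraFinite (h X) ∧ ∃ D : CK W (h X), D.MurreB,
      ∀ X : ι, KunnethHom W (h X) ∧ WeakNil W (h X),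
      (∀ X : ι, MurreA W (h X)) ∧
        ∀ N : C, Generated W h N → ∀ w : ℤ, w < 0 → W.gr N w = ⊤ → ∀ α : W.CH 0 N, α = 0,
      ∀ N : C, Generated W h N →
        MurreA W N ∧ (∀ D : CK W N, D.MurreB) ∧ MurreC W N ∧ KimuraFinite N] ∧
    List.TFAE [
      ∀ X : ι, MurreC W (h X) ∧ ∃ D : CK W (h X), D.MurreD,
      ∀ X : ι, KunnethHom W (h X) ∧ StrongNil W (h X),
      (∀ X : ι, MurreA W (h X)) ∧
        ∀ N : C, Generated W h N → ∀ w : ℤ, w ≤ 0 → W.gr N w = ⊤ → W.CHhom 0 N = ⊥,
      ∀ N : C, Generated W h N →
        MurreA W N ∧ (∀ D : CK W N, D.MurreB ∧ D.MurreD) ∧ MurreC W N] :=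
  ⟨H.tfae_abc, H.tfae_abcd⟩

end Pool.Agent.Helper15.ABC.ProductClosedArchive
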